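import Mathlib

set_option autoImplicit false
open MeasureTheory ProbabilityTheory Filter Topology Set InnerProductGeometry
open scoped ENNReal NNReal RealInnerProductSpace

namespace Pool.Agent.Helper553.Kac

theorem arctan_sinh_le {r : ℝ} (hr : 0 ≤ r) : Real.arctan (Real.sinh r) ≤ r := by
  have hmono : Monotone (fun r : ℝ => r - Real.arctan (Real.sinh r)) := by
    apply monotone_of_deriv_nonneg
    · exact differentiable_id.sub (Real.differentiable_arctan.comp Real.differentiable_sinh)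
    · intro x
      have h1 : HasDerivAt (fun r : ℝ => r - Real.arctan (Real.sinh r))
          (1 - 1 / (1 + Real.sinh x ^ 2) * Real.cosh x) x :=
        (hasDerivAt_id x).sub ((Real.hasDerivAt_sinh x).arctan)
      rw [h1.deriv]
      have h2 : 1 + Real.sinh x ^ 2 = Real.cosh x ^ 2 := by
        rw [Real.cosh_sq]; ring
      have h3 := Real.one_le_cosh x
      rw [h2, sub_nonneg, one_div_mul_eq_div, div_le_one (by positivity)]
      nlinarith
  have := hmono hr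
  simp only [Real.sinh_zero, Real.arctan_zero, sub_zero] at this
  linarith

theorem arccos_inv_cosh_le {r : ℝ} (hr : 0 ≤ r) : Real.arccos (1 / Real.cosh r) ≤ r := by
  have hc := Real.one_le_cosh r
  have hc0 : 0 < Real.cosh r := by linarith
  rw [Real.arccos_eq_arctan (by positivity)]
  have h1 : Real.sqrt (1 - (1 / Real.cosh r) ^ 2) / (1 / Real.cosh r) = Real.sinh r := by
    have h2 : 1 - (1 / Real.cosh r) ^ 2 = (Real.sinh r / Real.cosh r) ^ 2 := by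
      have := Real.cosh_sq r
      field_simp
      linarith
    rw [h2, Real.sqrt_sq (div_nonneg (Real.sinh_nonneg_iff.mpr hr) hc0.le)]
    field_simp
  rw [h1]
  exact arctan_sinh_le hr

section
variable {V : Type} [NormedAddCommGroup V] [InnerProductSpace ℝ V]

theorem angle_le_of_inner {u w : V} {r : ℝ} (hr : 0 ≤ r) (hu : u ≠ 0) (hw : w ≠ 0)
    (h : ‖u‖ * ‖w‖ ≤ ⟪u, w⟫ * Real.cosh r) : angle u w ≤ r := by
  have hun : 0 < ‖u‖ := norm_pos_iff.mpr hu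
  have hwn : 0 < ‖w‖ := norm_pos_iff.mpr hw
  have hc0 : 0 < Real.cosh r := Real.cosh_pos r
  refine le_trans ?_ (arccos_inv_cosh_le hr)
  apply Real.arccos_le_arccos
  rw [div_le_div_iff₀ hc0 (by positivity), one_mul]
  exact h

theorem cos_mul_le {κ α : ℝ} (hκ0 : 0 ≤ κ) (hκ1 : κ ≤ 1) (hα0 : 0 ≤ α) (hα : α ≤ Real.pi) :
    Real.cos (κ * α) ≤ 1 - κ ^ 2 * (1 - Real.cos α) := by
  have h1 : κ * Real.sin (α / 2) ≤ Real.sin (κ * (α / 2)) := by
    have hz : (0 : ℝ) ∈ Icc 0 Real.pi := ⟨le_refl _, Real.pi_pos.le⟩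
    have ha : α / 2 ∈ Icc 0 Real.pi := ⟨by linarith, by linarith⟩
    have hc := (strictConcaveOn_sin_Icc.concaveOn).2 hz ha (sub_nonneg.mpr hκ1) hκ0
      (by ring)
    simpa using hc
  have h2 : 0 ≤ Real.sin (α / 2) := Real.sin_nonneg_of_nonneg_of_le_pi (by linarith) (by linarith)
  have h3 : Real.cos α = 1 - 2 * Real.sin (α / 2) ^ 2 := by
    have := Real.cos_two_mul (α / 2)
    have h4 := Real.sin_sq_add_cos_sq (α / 2)
    rw [show 2 * (α / 2) = α by ring] at this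
    linarith
  have h5 : Real.cos (κ * α) = 1 - 2 * Real.sin (κ * (α / 2)) ^ 2 := by
    have := Real.cos_two_mul (κ * (α / 2))
    have h4 := Real.sin_sq_add_cos_sq (κ * (α / 2))
    rw [show 2 * (κ * (α / 2)) = κ * α by ring] at this
    linarith
  rw [h3, h5]
  have h6 : (κ * Real.sin (α / 2)) ^ 2 ≤ Real.sin (κ * (α / 2)) ^ 2 :=
    pow_le_pow_left₀ (by positivity) h1 2
  nlinarith

theorem inner_aux {q q' ζ : V} (hζ : ‖ζ‖ = 1) (hq : ⟪q, ζ⟫ = 0) (hq' : ⟪q', ζ⟫ = 0) (a b : ℝ) :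
    ⟪q + a • ζ, q' + b • ζ⟫ = ⟪q, q'⟫ + a * b := by
  have h1 : ⟪ζ, q'⟫ = 0 := by rw [real_inner_comm]; exact hq'
  rw [inner_add_left, inner_add_right, inner_add_right, inner_smul_left, inner_smul_right,
    inner_smul_left, inner_smul_right, hq, h1, real_inner_self_eq_norm_sq, hζ]
  simp only [conj_trivial]; ring

theorem norm_aux {q ζ : V} (hζ : ‖ζ‖ = 1) (hq1 : ‖q‖ = 1) (hq : ⟪q, ζ⟫ = 0) (a : ℝ) :
    ‖q + a • ζ‖ = Real.sqrt (1 + a ^ 2) := by
  rw [eq_comm, Real.sqrt_eq_iff_mul_self_eq (by positivity) (norm_nonneg _), ← sq,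
    ← real_inner_self_eq_norm_sq, inner_aux hζ hq hq, real_inner_self_eq_norm_sq, hq1]
  ring

/-- Angle between two vectors in one plane containing `ζ`. -/
theorem angle_same {p ζ : V} (hp : ‖p‖ = 1) (hζ : ‖ζ‖ = 1) (hpζ : ⟪p, ζ⟫ = 0) (h h' : ℝ) :
    angle (p + h • ζ) (p + h' • ζ) = |Real.arctan h - Real.arctan h'| := by
  have hi : ⟪p + h • ζ, p + h' • ζ⟫ = 1 + h * h' := by
    rw [inner_aux hζ hpζ hpζ, real_inner_self_eq_norm_sq, hp]; ring
  rw [angle, norm_aux hζ hp hpζ, norm_aux hζ hp hpζ, hi]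
  have h1 : (1 + h * h') / (Real.sqrt (1 + h ^ 2) * Real.sqrt (1 + h' ^ 2)) =
      Real.cos (|Real.arctan h - Real.arctan h'|) := by
    rw [Real.cos_abs, Real.cos_sub, Real.cos_arctan, Real.cos_arctan, Real.sin_arctan,
      Real.sin_arctan]
    have h2 : 0 < Real.sqrt (1 + h ^ 2) := Real.sqrt_pos.mpr (by positivity)
    have h3 : 0 < Real.sqrt (1 + h' ^ 2) := Real.sqrt_pos.mpr (by positivity)
    field_simp
  rw [h1, Real.arccos_cos (abs_nonneg _)]
  rw [abs_le]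
  have a1 := Real.neg_pi_div_two_lt_arctan h
  have a2 := Real.arctan_lt_pi_div_two h
  have a3 := Real.neg_pi_div_two_lt_arctan h'
  have a4 := Real.arctan_lt_pi_div_two h'
  constructor <;> linarith

theorem angle_parallel {p p' ζ : V} (hp : ‖p‖ = 1) (hp' : ‖p'‖ = 1) (hζ : ‖ζ‖ = 1)
    (hpζ : ⟪p, ζ⟫ = 0) (hpζ' : ⟪p', ζ⟫ = 0) (h : ℝ) :
    angle (p + h • ζ) (p' + h • ζ) ≤ 1 / Real.sqrt (1 + h ^ 2) * angle p p' := by
  have hpp : ⟪p, p'⟫ = Real.cos (angle p p') := by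
    rw [cos_angle, hp, hp']; simp
  have hi : ⟪p + h • ζ, p' + h • ζ⟫ = Real.cos (angle p p') + h ^ 2 := by
    rw [inner_aux hζ hpζ hpζ', hpp]; ring
  have hs : 0 < Real.sqrt (1 + h ^ 2) := Real.sqrt_pos.mpr (by positivity)
  have hss : Real.sqrt (1 + h ^ 2) * Real.sqrt (1 + h ^ 2) = 1 + h ^ 2 :=
    Real.mul_self_sqrt (by positivity)
  have hs1 : 1 ≤ Real.sqrt (1 + h ^ 2) := by
    rw [Real.one_le_sqrt]; nlinarith [sq_nonneg h]
  obtain ⟨κ, hκ⟩ : ∃ κ : ℝ, κ = 1 / Real.sqrt (1 + h ^ 2) := ⟨_, rfl⟩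
  have hκ0 : 0 ≤ κ := by rw [hκ]; positivity
  have hκ1 : κ ≤ 1 := by rw [hκ, div_le_one hs]; exact hs1
  have hκ2 : κ ^ 2 = 1 / (1 + h ^ 2) := by
    rw [hκ, div_pow, one_pow, sq, hss]
  have hα0 := angle_nonneg p p'
  have hαπ := angle_le_pi p p'
  have h1 := cos_mul_le hκ0 hκ1 hα0 hαπ
  have h2 : ⟪p + h • ζ, p' + h • ζ⟫ / (‖p + h • ζ‖ * ‖p' + h • ζ‖) =
      1 - κ ^ 2 * (1 - Real.cos (angle p p')) := by
    rw [norm_aux hζ hp hpζ, norm_aux hζ hp' hpζ', hi, hss, hκ2]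
    field_simp
    ring
  rw [← hκ]
  calc angle (p + h • ζ) (p' + h • ζ)
        = Real.arccos (1 - κ ^ 2 * (1 - Real.cos (angle p p'))) := by
        rw [← h2]; rfl
    _ ≤ Real.arccos (Real.cos (κ * angle p p')) := Real.arccos_le_arccos h1
    _ = κ * angle p p' := by
        apply Real.arccos_cos (by positivity)
        nlinarith

/-- The angle after adding components along an orthogonal unit vector. -/
theorem angle_add {v v' ζ : V} (hv : v ≠ 0) (hv' : v' ≠ 0) (hζ : ‖ζ‖ = 1)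
    (hvζ : ⟪v, ζ⟫ = 0) (hvζ' : ⟪v', ζ⟫ = 0) (e e' : ℝ) :
    angle (v + e • ζ) (v' + e' • ζ) ≤
      |Real.arctan (e / ‖v‖) - Real.arctan (e' / ‖v'‖)| +
        1 / Real.sqrt (1 + (e' / ‖v'‖) ^ 2) * angle v v' := by
  have hn : 0 < ‖v‖ := norm_pos_iff.mpr hv
  have hn' : 0 < ‖v'‖ := norm_pos_iff.mpr hv'
  obtain ⟨p, hp⟩ : ∃ p : V, p = ‖v‖⁻¹ • v := ⟨_, rfl⟩
  obtain ⟨p', hp'⟩ : ∃ p : V, p = ‖v'‖⁻¹ • v' := ⟨_, rfl⟩
  have h1 : v + e • ζ = ‖v‖ • (p + (e / ‖v‖) • ζ) := by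
    rw [hp, smul_add, smul_smul, smul_smul, mul_inv_cancel₀ hn.ne', one_smul,
      mul_div_cancel₀ _ hn.ne']
  have h2 : v' + e' • ζ = ‖v'‖ • (p' + (e' / ‖v'‖) • ζ) := by
    rw [hp', smul_add, smul_smul, smul_smul, mul_inv_cancel₀ hn'.ne', one_smul,
      mul_div_cancel₀ _ hn'.ne']
  have hpn : ‖p‖ = 1 := by rw [hp, norm_smul, norm_inv, norm_norm, inv_mul_cancel₀ hn.ne']
  have hpn' : ‖p'‖ = 1 := by rw [hp', norm_smul, norm_inv, norm_norm, inv_mul_cancel₀ hn'.ne']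
  have hpζ : ⟪p, ζ⟫ = 0 := by rw [hp, inner_smul_left, hvζ, mul_zero]
  have hpζ' : ⟪p', ζ⟫ = 0 := by rw [hp', inner_smul_left, hvζ', mul_zero]
  have hang : angle p p' = angle v v' := by
    rw [hp, hp', angle_smul_left_of_pos _ _ (by positivity),
      angle_smul_right_of_pos _ _ (by positivity)]
  rw [h1, h2, angle_smul_left_of_pos _ _ hn, angle_smul_right_of_pos _ _ hn', ← hang]
  refine (angle_le_angle_add_angle _ (p + (e' / ‖v'‖) • ζ) _).trans ?_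
  apply add_le_add
  · exact (angle_same hpn hζ hpζ _ _).le
  · exact angle_parallel hpn hpn' hζ hpζ hpζ' _

end

end Pool.Agent.Helper553.Kac
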