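import Pool.Agent.Helper553.Kac.Drift

set_option autoImplicit false
open MeasureTheory ProbabilityTheory Filter Topology Set InnerProductGeometry
open scoped ENNReal NNReal RealInnerProductSpace

namespace Pool.Agent.Helper553.Kac

theorem kappa_le_one (x : ℝ) : 1 / Real.sqrt (1 + x ^ 2) ≤ 1 := by
  have hs : 0 < Real.sqrt (1 + x ^ 2) := Real.sqrt_pos.mpr (by positivity)
  rw [div_le_one hs, Real.one_le_sqrt]
  nlinarith [sq_nonneg x]

theorem kappa_le {x : ℝ} (hx : 1 / 8 ≤ x ^ 2) : 1 / Real.sqrt (1 + x ^ 2) ≤ 19 / 20 := by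
  have hs : 0 < Real.sqrt (1 + x ^ 2) := Real.sqrt_pos.mpr (by positivity)
  rw [div_le_div_iff₀ hs (by norm_num)]
  have : (20 : ℝ) / 19 ≤ Real.sqrt (1 + x ^ 2) := by
    apply Real.le_sqrt_of_sq_le
    nlinarith
  linarith

/-- End point of the last interval. -/
noncomputable def rn (n : ℕ) : ℝ := 1 - 1 / n
/-- End point of the interval with a gain. -/
noncomputable def ym (m : ℕ) : ℝ := Real.sqrt (1 - 1 / (2 * m))

theorem rn_pos {n : ℕ} (hn : 4 ≤ n) : 0 < rn n := by
  have hn' : (4 : ℝ) ≤ n := by exact_mod_cast hn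
  have : (1 : ℝ) / n ≤ 1 / 4 := by
    rw [div_le_div_iff₀ (by linarith) (by norm_num)]; linarith
  unfold rn; linarith

theorem rn_lt_one {n : ℕ} (hn : 4 ≤ n) : rn n < 1 := by
  have hn' : (4 : ℝ) ≤ n := by exact_mod_cast hn
  have : (0 : ℝ) < 1 / n := by positivity
  unfold rn; linarith

theorem ym_sq {m : ℕ} (hm : 1 ≤ m) : ym m ^ 2 = 1 - 1 / (2 * m) := by
  have hm' : (1 : ℝ) ≤ m := by exact_mod_cast hm
  unfold ym
  apply Real.sq_sqrt
  have h12 : (1 : ℝ) / (2 * m) ≤ 1 / 2 := by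
    rw [div_le_div_iff₀ (by positivity) (by norm_num)]; linarith
  linarith

theorem ym_nonneg (m : ℕ) : 0 ≤ ym m := Real.sqrt_nonneg _

theorem ym_le_rn {n m : ℕ} (hm : 1 ≤ m) (hn : 4 * m ≤ n) : ym m ≤ rn n := by
  have hm' : (1 : ℝ) ≤ m := by exact_mod_cast hm
  have hn' : (4 : ℝ) * m ≤ n := by exact_mod_cast hn
  have hr := rn_pos (n := n) (by omega)
  apply le_of_sq_le_sq _ hr.le
  rw [ym_sq hm, rn]
  have h1 : 2 * (1 / (n : ℝ)) ≤ 1 / (2 * m) := by
    rw [mul_one_div, div_le_div_iff₀ (by linarith) (by linarith)]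
    linarith
  nlinarith [sq_nonneg (1 / (n : ℝ))]

theorem ym_lt_one {m : ℕ} (hm : 1 ≤ m) : ym m < 1 :=
  (ym_le_rn hm (le_refl (4 * m))).trans_lt (rn_lt_one (by omega))

theorem log_zone {n : ℕ} (hn : 4 ≤ n) : (n : ℝ) / 2 * (Real.log 1 - Real.log (rn n)) ≤ 1 := by
  have hn' : (4 : ℝ) ≤ n := by exact_mod_cast hn
  have hr := rn_pos hn
  have h1 := Real.one_sub_inv_le_log_of_pos hr
  have h2 : 1 - (rn n)⁻¹ = - (1 / ((n : ℝ) - 1)) := by
    unfold rn
    have : (n : ℝ) - 1 ≠ 0 := by linarith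
    have h3 : (1 - 1 / (n : ℝ)) = (n - 1) / n := by field_simp
    rw [h3, inv_div]
    field_simp
    ring
  rw [h2] at h1
  rw [Real.log_one, zero_sub]
  have h4 : - Real.log (rn n) ≤ 1 / ((n : ℝ) - 1) := by linarith
  calc (n : ℝ) / 2 * (- Real.log (rn n)) ≤ n / 2 * (1 / ((n : ℝ) - 1)) :=
        mul_le_mul_of_nonneg_left h4 (by positivity)
    _ ≤ 1 := by
        rw [mul_one_div, div_div, div_le_one (by linarith)]
        linarith

theorem L_rn {n : ℕ} (hn : 4 ≤ n) : L (rn n) ≤ 1 / 2 * Real.log (2 * n) := by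
  have hn' : (4 : ℝ) ≤ n := by exact_mod_cast hn
  unfold L rn
  apply mul_le_mul_of_nonneg_left _ (by norm_num)
  have h1 : (1 + (1 - 1 / (n : ℝ))) / (1 - (1 - 1 / n)) = 2 * n - 1 := by
    field_simp
    ring
  rw [h1]
  exact Real.log_le_log (by linarith) (by linarith)

theorem L_ym {m : ℕ} (hm : 1 ≤ m) : 1 / 2 * Real.log (2 * m) ≤ L (ym m) ∧
    L (ym m) ≤ 1 / 2 * Real.log (8 * m) := by
  have hm' : (1 : ℝ) ≤ m := by exact_mod_cast hm
  have h0 := ym_nonneg m
  have h1 := ym_lt_one hm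
  have h2 := ym_sq hm
  have h3 : (1 + ym m) / (1 - ym m) = (1 + ym m) ^ 2 * (2 * m) := by
    have e1 : (1 - ym m) * (1 + ym m) * (2 * m) = 1 := by
      have : (1 - ym m) * (1 + ym m) = 1 / (2 * m) := by ring_nf; rw [h2]; ring
      rw [this]; field_simp
    have e2 : 1 - ym m ≠ 0 := by linarith
    rw [div_eq_iff e2]
    calc 1 + ym m = (1 + ym m) * ((1 - ym m) * (1 + ym m) * (2 * m)) := by rw [e1, mul_one]
      _ = _ := by ring
  unfold L
  rw [h3]
  constructor
  · apply mul_le_mul_of_nonneg_left _ (by norm_num)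
    apply Real.log_le_log (by positivity)
    nlinarith [mul_nonneg h0 h0]
  · apply mul_le_mul_of_nonneg_left _ (by norm_num)
    apply Real.log_le_log (by positivity)
    have h4 : (1 + ym m) ^ 2 ≤ 4 := by nlinarith
    nlinarith

theorem angBound_fwd {n m : ℕ} (hm : 1 ≤ m) (hn : 4 * m ≤ n) :
    AngBound (fun t => vec n (efwd n m t) t) 0 1 (1 / 2 * Real.log (2 * n) + 1 + Real.pi) := by
  have hn4 : 4 ≤ n := by omega
  have hr := rn_pos hn4
  have hr1 := rn_lt_one hn4
  have hmono := hfun_fwd_mono n m hm (by omega)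
  have b1 := angBound_of n (efwd n m) (a := 0) (b := rn n) (κ := 1) L
    (fun x y hx hxy hy => angle_vec_L n hx hxy (by linarith)) hr.le
    (fun t ht => hfun_fwd_nonneg n m ht.1)
    (Or.inl (hmono.mono (fun t ht => ht.1)))
    (fun t _ => kappa_le_one _)
  have b2 := angBound_of n (efwd n m) (a := rn n) (b := 1) (κ := 1)
    (fun t => n / 2 * Real.log t)
    (fun x y hx hxy hy => by
      have := angle_vec_log n (hr.trans_le hx) hxy
      linarith) hr1.le
    (fun t ht => hfun_fwd_nonneg n m (hr.le.trans ht.1))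
    (Or.inl (hmono.mono (fun t ht => hr.le.trans ht.1)))
    (fun t _ => kappa_le_one _)
  refine (b1.glue b2 hr.le hr1.le).mono ?_
  have h1 := L_rn hn4
  have h2 := log_zone hn4
  rw [L_zero]
  linarith

theorem angBound_rev {n m : ℕ} (hm : 1 ≤ m) (hn : 4 * m ≤ n) :
    AngBound (fun t => vec n (erev m t) t) 0 1
      (19 / 20 * (1 / 2 * Real.log (8 * m)) + (1 / 2 * Real.log (2 * n) - 1 / 2 * Real.log (2 * m))
        + 1 + 3 * (Real.pi / 2)) := by
  have hn4 : 4 ≤ n := by omega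
  have hr := rn_pos hn4
  have hr1 := rn_lt_one hn4
  have hy0 := ym_nonneg m
  have hyr := ym_le_rn hm hn
  have hanti := hfun_rev_antitone n m (by omega)
  have b0 := angBound_of n (erev m) (a := 0) (b := ym m) (κ := 19 / 20) L
    (fun x y hx hxy hy => angle_vec_L n hx hxy (by linarith)) hy0
    (fun t ht => hfun_rev_nonneg n m t)
    (Or.inr (hanti.mono (fun t ht => ht.1)))
    (fun t ht => by
      apply kappa_le
      rw [hfun_rev_sq]
      apply ratio_lower n m hm (by omega) (sq_nonneg t)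
      rw [← ym_sq hm]
      exact pow_le_pow_left₀ ht.1 ht.2 2)
  have b1 := angBound_of n (erev m) (a := ym m) (b := rn n) (κ := 1) L
    (fun x y hx hxy hy => angle_vec_L n (hy0.trans hx) hxy (by linarith)) hyr
    (fun t ht => hfun_rev_nonneg n m t)
    (Or.inr (hanti.mono (fun t ht => hy0.trans ht.1)))
    (fun t _ => kappa_le_one _)
  have b2 := angBound_of n (erev m) (a := rn n) (b := 1) (κ := 1)
    (fun t => n / 2 * Real.log t)
    (fun x y hx hxy hy => by
      have := angle_vec_log n (hr.trans_le hx) hxy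
      linarith) hr1.le
    (fun t ht => hfun_rev_nonneg n m t)
    (Or.inr (hanti.mono (fun t ht => hr.le.trans ht.1)))
    (fun t _ => kappa_le_one _)
  refine ((b0.glue b1 hy0 hyr).glue b2 hr.le hr1.le).mono ?_
  have h1 := L_rn hn4
  have h2 := log_zone hn4
  have h3 := L_ym hm
  rw [L_zero]
  linarith [h3.1, h3.2]

theorem angle_vec_congr (n : ℕ) {ex ey ex' ey' x y x' y' : ℝ} (h1 : ex * ey = ex' * ey')
    (h2 : ex ^ 2 = ex' ^ 2) (h3 : ey ^ 2 = ey' ^ 2) (hxy : x * y = x' * y') (hxx : x * x = x' * x')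
    (hyy : y * y = y' * y') :
    angle (vec n ex x) (vec n ey y) = angle (vec n ex' x') (vec n ey' y') := by
  have e1 : ‖vec n ex x‖ = ‖vec n ex' x'‖ := by
    rw [← sq_eq_sq₀ (norm_nonneg _) (norm_nonneg _), norm_vec_sq, norm_vec_sq, h2]
    unfold K; rw [hxx]
  have e2 : ‖vec n ey y‖ = ‖vec n ey' y'‖ := by
    rw [← sq_eq_sq₀ (norm_nonneg _) (norm_nonneg _), norm_vec_sq, norm_vec_sq, h3]
    unfold K; rw [hyy]
  rw [angle, angle, e1, e2, inner_vec, inner_vec, h1]
  unfold K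
  rw [hxy]

theorem erev_neg (m : ℕ) (t : ℝ) : erev m (-t) = erev m t := by
  unfold erev; rw [neg_sq]

theorem efwd_neg (n m : ℕ) (hn : 2 * m ≤ n) (t : ℝ) : efwd n m (-t) = (-1) ^ n * efwd n m t := by
  unfold efwd
  rw [Finset.mul_sum]
  apply Finset.sum_congr rfl
  intro i hi
  have : 2 * i ≤ n := by have := Finset.mem_range.mp hi; omega
  obtain ⟨k, hk⟩ := Nat.exists_eq_add_of_le this
  rw [hk, Nat.add_sub_cancel_left, neg_pow, pow_add, pow_mul]
  simp
  ring

theorem angBound_fwd_full {n m : ℕ} (hm : 1 ≤ m) (hn : 4 * m ≤ n) :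
    AngBound (fun t => vec n (efwd n m t) t) (-1) 1
      (2 * (1 / 2 * Real.log (2 * n) + 1 + Real.pi)) := by
  have h := angBound_fwd hm hn
  have h2 := h.reflect (by
    intro x y
    apply angle_vec_congr
    · rw [efwd_neg n m (by omega), efwd_neg n m (by omega)]
      have : ((-1 : ℝ) ^ n) * (-1) ^ n = 1 := by rw [← mul_pow]; simp
      calc (-1) ^ n * efwd n m x * ((-1) ^ n * efwd n m y) =
          ((-1 : ℝ) ^ n * (-1) ^ n) * (efwd n m x * efwd n m y) := by ring
        _ = _ := by rw [this, one_mul]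
    · rw [efwd_neg n m (by omega), mul_pow, ← pow_mul, mul_comm n 2, pow_mul]; simp
    · rw [efwd_neg n m (by omega), mul_pow, ← pow_mul, mul_comm n 2, pow_mul]; simp
    · ring
    · ring
    · ring)
  refine (h2.glue h (by norm_num) (by norm_num)).mono ?_
  linarith

theorem angBound_rev_full {n m : ℕ} (hm : 1 ≤ m) (hn : 4 * m ≤ n) :
    AngBound (fun t => vec n (erev m t) t) (-1) 1
      (2 * (19 / 20 * (1 / 2 * Real.log (8 * m)) +
        (1 / 2 * Real.log (2 * n) - 1 / 2 * Real.log (2 * m)) + 1 + 3 * (Real.pi / 2))) := by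
  have h := angBound_rev hm hn
  have h2 := h.reflect (by
    intro x y
    apply angle_vec_congr
    · rw [erev_neg, erev_neg]
    · rw [erev_neg]
    · rw [erev_neg]
    · ring
    · ring
    · ring)
  refine (h2.glue h (by norm_num) (by norm_num)).mono ?_
  linarith

theorem total_le {n m : ℕ} (hm : 1 ≤ m) (hn : 4 * m ≤ n) :
    2 * (1 / 2 * Real.log (2 * n) + 1 + Real.pi) +
      2 * (19 / 20 * (1 / 2 * Real.log (8 * m)) +
        (1 / 2 * Real.log (2 * n) - 1 / 2 * Real.log (2 * m)) + 1 + 3 * (Real.pi / 2)) ≤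
      2 * (Real.log n - 1 / 40 * Real.log m + 12) := by
  have hm' : (1 : ℝ) ≤ m := by exact_mod_cast hm
  have hn' : (4 : ℝ) * m ≤ n := by exact_mod_cast hn
  have hn0 : (0 : ℝ) < n := by linarith
  rw [Real.log_mul (by norm_num) hn0.ne', Real.log_mul (by norm_num) (by linarith),
    Real.log_mul (by norm_num) (by linarith)]
  have h8 : Real.log 8 = 3 * Real.log 2 := by
    rw [show (8 : ℝ) = 2 ^ 3 by norm_num, Real.log_pow]; norm_num
  have h2 := Real.log_two_lt_d9
  have hpi := Real.pi_lt_d2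
  rw [h8]
  nlinarith

end Pool.Agent.Helper553.Kac
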