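import Pool.Agent.Helper553.Kac.Kernel

set_option autoImplicit false
open MeasureTheory ProbabilityTheory Filter Topology Set InnerProductGeometry
open scoped ENNReal NNReal RealInnerProductSpace

namespace Pool.Agent.Helper553.Kac

/-- The coefficients of `(1 - z)^(-1/2)`. -/
noncomputable def c : ℕ → ℝ
  | 0 => 1
  | (i + 1) => c i * ((2 * i + 1) / (2 * i + 2))

theorem c_succ (i : ℕ) : c (i + 1) = c i * ((2 * i + 1) / (2 * i + 2)) := rfl

theorem c_pos (i : ℕ) : 0 < c i := by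
  induction i with
  | zero => simp [c]
  | succ i ih => rw [c_succ]; positivity

theorem sum_c (k : ℕ) : ∑ i ∈ Finset.range (k + 1), c i = (2 * k + 1) * c k := by
  induction k with
  | zero => simp [c]
  | succ k ih =>
    rw [Finset.sum_range_succ, ih, c_succ]
    push_cast
    field_simp

theorem sum_ic (k : ℕ) : ∑ i ∈ Finset.range (k + 1), (i : ℝ) * c i = k * (2 * k + 1) / 3 * c k := by
  induction k with
  | zero => simp [c]
  | succ k ih =>
    rw [Finset.sum_range_succ, ih, c_succ]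
    push_cast
    field_simp
    ring

theorem c_sq_ge (i : ℕ) : 1 ≤ 4 * ((i : ℝ) + 1) * c (i + 1) ^ 2 := by
  induction i with
  | zero => simp [c]; norm_num
  | succ i ih =>
    rw [c_succ (i + 1)]
    push_cast
    have h1 : 4 * ((i : ℝ) + 1 + 1) * (c (i + 1) * ((2 * (i + 1) + 1) / (2 * (i + 1) + 2))) ^ 2 =
      (4 * ((i : ℝ) + 1) * c (i + 1) ^ 2) *
        (((2 * i + 3) ^ 2) / (4 * (i + 1) * (i + 2))) := by
      field_simp
      ring
    rw [h1]
    have h2 : (1 : ℝ) ≤ ((2 * i + 3) ^ 2) / (4 * (i + 1) * (i + 2)) := by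
      rw [le_div_iff₀ (by positivity)]
      nlinarith
    nlinarith

theorem c_sq_le (i : ℕ) : c i ^ 2 ≤ 1 / ((i : ℝ) + 1) := by
  induction i with
  | zero => simp [c]
  | succ i ih =>
    rw [c_succ]
    push_cast
    have h1 : (c i * ((2 * i + 1) / (2 * i + 2))) ^ 2 = c i ^ 2 * (((2 * i + 1) / (2 * i + 2)) ^ 2) := by
      ring
    rw [h1]
    calc c i ^ 2 * (((2 * i + 1) / (2 * i + 2)) ^ 2) ≤
          1 / ((i : ℝ) + 1) * (((2 * i + 1) / (2 * i + 2)) ^ 2) :=
          mul_le_mul_of_nonneg_right ih (by positivity)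
      _ ≤ 1 / ((i : ℝ) + 1 + 1) := by
          rw [div_pow, one_div_mul_eq_div, div_div, div_le_div_iff₀ (by positivity) (by positivity)]
          nlinarith [sq_nonneg (i : ℝ), mul_nonneg (sq_nonneg (i : ℝ)) (Nat.cast_nonneg (α := ℝ) i)]

/-- Truncated series. -/
noncomputable def pm (m : ℕ) (z : ℝ) : ℝ := ∑ i ∈ Finset.range (m + 1), c i * z ^ i
/-- Geometric sum. -/
noncomputable def qn (n : ℕ) (z : ℝ) : ℝ := ∑ j ∈ Finset.range (n + 1), z ^ j

theorem inner_sum_nonneg (m k : ℕ) :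
    0 ≤ ∑ i ∈ Finset.range (m + 1), (if i ≤ k then ((k : ℝ) - 3 * i) * c i else 0) := by
  rcases le_or_gt k m with h | h
  · have h1 : ∑ i ∈ Finset.range (m + 1), (if i ≤ k then ((k : ℝ) - 3 * i) * c i else 0) =
        ∑ i ∈ Finset.range (k + 1), ((k : ℝ) - 3 * i) * c i := by
      rw [← Finset.sum_filter]
      apply Finset.sum_congr _ (fun _ _ => rfl)
      ext i
      simp only [Finset.mem_filter, Finset.mem_range]
      omega
    have h2 : ∑ i ∈ Finset.range (k + 1), ((k : ℝ) - 3 * i) * c i =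
        k * (∑ i ∈ Finset.range (k + 1), c i) - 3 * ∑ i ∈ Finset.range (k + 1), (i : ℝ) * c i := by
      rw [Finset.mul_sum, Finset.mul_sum, ← Finset.sum_sub_distrib]
      apply Finset.sum_congr rfl
      intro i _; ring
    rw [h1, h2, sum_c, sum_ic]
    apply le_of_eq; ring
  · have h1 : ∑ i ∈ Finset.range (m + 1), (if i ≤ k then ((k : ℝ) - 3 * i) * c i else 0) =
        ∑ i ∈ Finset.range (m + 1), ((k : ℝ) - 3 * i) * c i := by
      apply Finset.sum_congr rfl
      intro i hi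
      have := Finset.mem_range.mp hi
      rw [if_pos (by omega)]
    have h2 : ∑ i ∈ Finset.range (m + 1), ((k : ℝ) - 3 * i) * c i =
        k * (∑ i ∈ Finset.range (m + 1), c i) - 3 * ∑ i ∈ Finset.range (m + 1), (i : ℝ) * c i := by
      rw [Finset.mul_sum, Finset.mul_sum, ← Finset.sum_sub_distrib]
      apply Finset.sum_congr rfl
      intro i _; ring
    rw [h1, h2, sum_c, sum_ic]
    have h3 : (m : ℝ) ≤ k := by exact_mod_cast h.le
    have h4 : (k : ℝ) * ((2 * m + 1) * c m) - 3 * (m * (2 * m + 1) / 3 * c m) =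
        (k - m) * ((2 * m + 1) * c m) := by ring
    rw [h4]
    exact mul_nonneg (sub_nonneg.mpr h3) (mul_nonneg (by positivity) (c_pos m).le)

theorem double_sum_nonneg (n m : ℕ) (hn : 3 * m ≤ n) {z : ℝ} (hz : 0 ≤ z) :
    0 ≤ ∑ i ∈ Finset.range (m + 1), ∑ j ∈ Finset.range (n + 1),
      ((j : ℝ) - 2 * i) * c i * z ^ (i + j) := by
  have h1 : ∀ i ∈ Finset.range (m + 1), ∑ k ∈ Finset.range (n + 1),
      (if i ≤ k then ((k : ℝ) - 3 * i) * c i * z ^ k else 0) ≤
      ∑ j ∈ Finset.range (n + 1), ((j : ℝ) - 2 * i) * c i * z ^ (i + j) := by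
    intro i hi
    have him : i ≤ m := by have := Finset.mem_range.mp hi; omega
    have h2 : ∑ k ∈ Finset.range (n + 1),
        (if i ≤ k then ((k : ℝ) - 3 * i) * c i * z ^ k else 0) =
        ∑ j ∈ Finset.range (n + 1 - i), ((j : ℝ) - 2 * i) * c i * z ^ (i + j) := by
      rw [← Finset.sum_filter]
      have h3 : (Finset.range (n + 1)).filter (fun k => i ≤ k) = Finset.Ico i (n + 1) := by
        ext k
        simp only [Finset.mem_filter, Finset.mem_range, Finset.mem_Ico]
        omega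
      rw [h3, Finset.sum_Ico_eq_sum_range]
      apply Finset.sum_congr rfl
      intro j _
      push_cast
      ring
    rw [h2]
    apply Finset.sum_le_sum_of_subset_of_nonneg
    · intro j hj
      simp only [Finset.mem_range] at hj ⊢
      omega
    · intro j hj hj2
      simp only [Finset.mem_range] at hj hj2
      have h4 : (2 * i : ℝ) ≤ j := by
        have : 2 * i ≤ j := by omega
        exact_mod_cast this
      exact mul_nonneg (mul_nonneg (by linarith) (c_pos i).le) (pow_nonneg hz _)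
  refine le_trans ?_ (Finset.sum_le_sum h1)
  rw [Finset.sum_comm]
  apply Finset.sum_nonneg
  intro k _
  have h5 : ∑ i ∈ Finset.range (m + 1), (if i ≤ k then ((k : ℝ) - 3 * i) * c i * z ^ k else 0) =
      (∑ i ∈ Finset.range (m + 1), (if i ≤ k then ((k : ℝ) - 3 * i) * c i else 0)) * z ^ k := by
    rw [Finset.sum_mul]
    apply Finset.sum_congr rfl
    intro i _
    split_ifs
    · rfl
    · ring
  rw [h5]
  exact mul_nonneg (inner_sum_nonneg m k) (pow_nonneg hz _)

/-- Derivative sums. -/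
noncomputable def pm' (m : ℕ) (z : ℝ) : ℝ := ∑ i ∈ Finset.range (m + 1), c i * (i * z ^ (i - 1))
/-- Derivative sums. -/
noncomputable def qn' (n : ℕ) (z : ℝ) : ℝ := ∑ j ∈ Finset.range (n + 1), (j : ℝ) * z ^ (j - 1)

theorem hasDerivAt_pm (m : ℕ) (z : ℝ) : HasDerivAt (pm m) (pm' m z) z := by
  unfold pm pm'
  apply HasDerivAt.fun_sum
  intro i _
  exact (hasDerivAt_pow i z).const_mul (c i)

theorem hasDerivAt_qn (n : ℕ) (z : ℝ) : HasDerivAt (qn n) (qn' n z) z := by
  unfold qn qn'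
  apply HasDerivAt.fun_sum
  intro i _
  exact hasDerivAt_pow i z

theorem one_le_qn (n : ℕ) {z : ℝ} (hz : 0 ≤ z) : 1 ≤ qn n z := by
  unfold qn
  rw [Finset.sum_range_succ']
  have : 0 ≤ ∑ k ∈ Finset.range n, z ^ (k + 1) :=
    Finset.sum_nonneg (fun i _ => pow_nonneg hz _)
  simp only [pow_zero]
  linarith

theorem pm_nonneg (m : ℕ) {z : ℝ} (hz : 0 ≤ z) : 0 ≤ pm m z :=
  Finset.sum_nonneg (fun i _ => mul_nonneg (c_pos i).le (pow_nonneg hz _))

theorem main_ineq (n m : ℕ) (hn : 3 * m ≤ n) {z : ℝ} (hz : 0 < z) :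
    2 * pm' m z * qn n z ≤ pm m z * qn' n z := by
  have h := double_sum_nonneg n m hn hz.le
  have h1 : ∑ i ∈ Finset.range (m + 1), ∑ j ∈ Finset.range (n + 1),
      ((j : ℝ) - 2 * i) * c i * z ^ (i + j) =
      z * (pm m z * qn' n z - 2 * pm' m z * qn n z) := by
    unfold pm pm' qn qn'
    rw [Finset.sum_mul_sum, mul_assoc 2, Finset.sum_mul_sum, Finset.mul_sum, ← Finset.sum_sub_distrib,
      Finset.mul_sum]
    apply Finset.sum_congr rfl
    intro i _
    rw [Finset.mul_sum, ← Finset.sum_sub_distrib, Finset.mul_sum]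
    apply Finset.sum_congr rfl
    intro j _
    have e1 : (j : ℝ) * z ^ (j - 1) * z = j * z ^ j := by
      rcases j with _ | j
      · simp
      · simp only [Nat.add_sub_cancel]; ring
    have e2 : (i : ℝ) * z ^ (i - 1) * z = i * z ^ i := by
      rcases i with _ | i
      · simp
      · simp only [Nat.add_sub_cancel]; ring
    have e3 : z * (c i * z ^ i * (↑j * z ^ (j - 1)) - 2 * (c i * (↑i * z ^ (i - 1)) * z ^ j)) =
        c i * z ^ i * (↑j * z ^ (j - 1) * z) - 2 * (c i * (↑i * z ^ (i - 1) * z) * z ^ j) := by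
      ring
    rw [e3, e1, e2, pow_add]
    ring
  rw [h1] at h
  have := (mul_nonneg_iff_of_pos_left hz).mp h
  linarith

theorem ratio_antitone (n m : ℕ) (hn : 3 * m ≤ n) :
    AntitoneOn (fun z => pm m z ^ 2 / qn n z) (Ici 0) := by
  have hd : ∀ z : ℝ, 0 ≤ z → HasDerivAt (fun z => pm m z ^ 2 / qn n z)
      ((2 * pm m z * pm' m z * qn n z - pm m z ^ 2 * qn' n z) / qn n z ^ 2) z := by
    intro z hz
    have hq : qn n z ≠ 0 := by have := one_le_qn n hz; linarith
    have h1 : HasDerivAt (fun z => pm m z ^ 2 / qn n z)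
        ((((2 : ℕ) : ℝ) * pm m z ^ (2 - 1) * pm' m z * qn n z - pm m z ^ 2 * qn' n z) /
          qn n z ^ 2) z := ((hasDerivAt_pm m z).pow 2).div (hasDerivAt_qn n z) hq
    refine h1.congr_deriv ?_
    norm_num
  apply antitoneOn_of_deriv_nonpos (convex_Ici 0)
  · intro z hz
    exact (hd z hz).continuousAt.continuousWithinAt
  · intro z hz
    rw [interior_Ici] at hz
    exact (hd z (le_of_lt hz)).differentiableAt.differentiableWithinAt
  · intro z hz
    rw [interior_Ici] at hz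
    rw [(hd z (le_of_lt hz)).deriv]
    apply div_nonpos_of_nonpos_of_nonneg _ (sq_nonneg _)
    have h1 := main_ineq n m hn hz
    have h2 := pm_nonneg m (le_of_lt hz)
    nlinarith

theorem ratio_lower (n m : ℕ) (hm : 1 ≤ m) (hn : 3 * m ≤ n) {z : ℝ} (hz0 : 0 ≤ z)
    (hz : z ≤ 1 - 1 / (2 * m)) : 1 / 8 ≤ pm m z ^ 2 / qn n z := by
  have hm' : (1 : ℝ) ≤ m := by exact_mod_cast hm
  set z₀ : ℝ := 1 - 1 / (2 * m) with hz0'
  have h12 : (1 : ℝ) / (2 * m) ≤ 1 / 2 := by
    rw [div_le_div_iff₀ (by positivity) (by norm_num)]; linarith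
  have hpos : (0 : ℝ) < 1 / (2 * m) := by positivity
  have hz00 : 0 ≤ z₀ := by linarith
  refine le_trans ?_ (ratio_antitone n m hn hz0 (hz0.trans hz) hz)
  simp only
  have hq : qn n z₀ ≤ 2 * m := by
    unfold qn
    rw [geom_sum_eq (by linarith)]
    have h1 : z₀ - 1 = -(1 / (2 * m)) := by rw [hz0']; ring
    rw [h1, div_neg, ← neg_div, div_le_iff₀ hpos]
    have h2 : 0 ≤ z₀ ^ (n + 1) := pow_nonneg hz00 _
    have h3 : (2 * (m : ℝ)) * (1 / (2 * m)) = 1 := by field_simp
    rw [h3]; linarith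
  have hq0 : 1 ≤ qn n z₀ := one_le_qn n hz00
  have hpow : 1 / 2 ≤ z₀ ^ m := by
    have h1 := one_add_mul_le_pow (a := -(1 / (2 * (m : ℝ)))) (by linarith) m
    have h2 : 1 + (m : ℝ) * -(1 / (2 * m)) = 1 / 2 := by field_simp; ring
    rw [h2] at h1
    have h3 : z₀ = 1 + -(1 / (2 * (m : ℝ))) := by rw [hz0']; ring
    rw [h3]; exact h1
  have hp : z₀ ^ m * ((2 * m + 1) * c m) ≤ pm m z₀ := by
    rw [← sum_c, Finset.mul_sum]
    unfold pm
    apply Finset.sum_le_sum
    intro i hi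
    rw [mul_comm]
    apply mul_le_mul_of_nonneg_left _ (c_pos i).le
    apply pow_le_pow_of_le_one hz00 (by linarith)
    have := Finset.mem_range.mp hi
    omega
  have hcm : 1 ≤ 4 * (m : ℝ) * c m ^ 2 := by
    obtain ⟨k, rfl⟩ := Nat.exists_eq_add_of_le' hm
    have := c_sq_ge k
    push_cast
    exact this
  have hcpos := c_pos m
  have hp2 : (m : ℝ) * c m ≤ pm m z₀ := by
    refine le_trans ?_ hp
    have : (1 : ℝ) / 2 * ((2 * m + 1) * c m) ≤ z₀ ^ m * ((2 * m + 1) * c m) :=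
      mul_le_mul_of_nonneg_right hpow (by positivity)
    nlinarith
  rw [le_div_iff₀ (by linarith)]
  have hp3 : ((m : ℝ) * c m) ^ 2 ≤ pm m z₀ ^ 2 := pow_le_pow_left₀ (by positivity) hp2 2
  nlinarith

/-- The drift for the reversed polynomial. -/
noncomputable def erev (m : ℕ) (t : ℝ) : ℝ := pm m (t ^ 2)
/-- The drift for the polynomial. -/
noncomputable def efwd (n m : ℕ) (t : ℝ) : ℝ := ∑ i ∈ Finset.range (m + 1), c i * t ^ (n - 2 * i)

theorem K_diag (n : ℕ) (t : ℝ) : K n t t = qn n (t ^ 2) := by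
  unfold K qn
  apply Finset.sum_congr rfl
  intro j _
  rw [sq]

theorem hfun_rev_nonneg (n m : ℕ) (t : ℝ) : 0 ≤ hfun n (erev m) t :=
  div_nonneg (pm_nonneg m (sq_nonneg t)) (Real.sqrt_nonneg _)

theorem hfun_rev_sq (n m : ℕ) (t : ℝ) :
    hfun n (erev m) t ^ 2 = pm m (t ^ 2) ^ 2 / qn n (t ^ 2) := by
  unfold hfun erev
  rw [div_pow, Real.sq_sqrt (by linarith [one_le_K n t]), K_diag]

theorem hfun_rev_antitone (n m : ℕ) (hn : 3 * m ≤ n) :
    AntitoneOn (hfun n (erev m)) (Ici 0) := by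
  intro x hx y hy hxy
  have h1 : hfun n (erev m) y ^ 2 ≤ hfun n (erev m) x ^ 2 := by
    rw [hfun_rev_sq, hfun_rev_sq]
    apply ratio_antitone n m hn (sq_nonneg x) (sq_nonneg y)
    exact pow_le_pow_left₀ hx hxy 2
  exact le_of_sq_le_sq h1 (hfun_rev_nonneg n m x)

theorem hfun_fwd_eq (n m : ℕ) (hn : 2 * m ≤ n) {t : ℝ} (ht : 0 < t) :
    hfun n (efwd n m) t = hfun n (erev m) (1 / t) := by
  unfold hfun
  have h1 : efwd n m t = t ^ n * erev m (1 / t) := by
    unfold efwd erev pm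
    rw [Finset.mul_sum]
    apply Finset.sum_congr rfl
    intro i hi
    have : 2 * i ≤ n := by have := Finset.mem_range.mp hi; omega
    obtain ⟨k, hk⟩ := Nat.exists_eq_add_of_le this
    rw [hk, Nat.add_sub_cancel_left, pow_add, ← pow_mul, one_div, inv_pow]
    field_simp
  have h2 : K n t t = (t ^ n) ^ 2 * K n (1 / t) (1 / t) := by
    unfold K
    rw [← Finset.sum_range_reflect, Finset.mul_sum]
    apply Finset.sum_congr rfl
    intro j hj
    have : j ≤ n := by have := Finset.mem_range.mp hj; omega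
    obtain ⟨k, hk⟩ := Nat.exists_eq_add_of_le this
    have e : n + 1 - 1 - j = k := by omega
    rw [e, hk, pow_add]
    have : (1 / t * (1 / t)) ^ j = 1 / (t ^ j) ^ 2 := by
      rw [one_div, mul_pow, inv_pow]; ring
    rw [this]
    field_simp
    ring
  rw [h1, h2, Real.sqrt_mul (sq_nonneg _), Real.sqrt_sq (by positivity)]
  have h3 : 0 < Real.sqrt (K n (1 / t) (1 / t)) := Real.sqrt_pos.mpr (by linarith [one_le_K n (1 / t)])
  field_simp

theorem hfun_fwd_nonneg (n m : ℕ) {t : ℝ} (ht : 0 ≤ t) : 0 ≤ hfun n (efwd n m) t :=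
  div_nonneg (Finset.sum_nonneg (fun i _ => mul_nonneg (c_pos i).le (pow_nonneg ht _)))
    (Real.sqrt_nonneg _)

theorem hfun_fwd_mono (n m : ℕ) (hm : 1 ≤ m) (hn : 3 * m ≤ n) :
    MonotoneOn (hfun n (efwd n m)) (Ici 0) := by
  intro x hx y hy hxy
  rcases (mem_Ici.mp hx).lt_or_eq with h | h
  · rw [hfun_fwd_eq n m (by omega) h, hfun_fwd_eq n m (by omega) (h.trans_le hxy)]
    apply hfun_rev_antitone n m hn
    · exact mem_Ici.mpr (one_div_nonneg.mpr (mem_Ici.mp hy))
    · exact mem_Ici.mpr (one_div_nonneg.mpr (mem_Ici.mp hx))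
    · exact one_div_le_one_div_of_le h hxy
  · have h0 : hfun n (efwd n m) x = 0 := by
      rw [← h]
      unfold hfun efwd
      have : ∑ i ∈ Finset.range (m + 1), c i * (0 : ℝ) ^ (n - 2 * i) = 0 := by
        apply Finset.sum_eq_zero
        intro i hi
        have := Finset.mem_range.mp hi
        rw [zero_pow (by omega), mul_zero]
      rw [this, zero_div]
    rw [h0]
    exact hfun_fwd_nonneg n m hy

end Pool.Agent.Helper553.Kac
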