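import Mathlib

set_option autoImplicit false
open MeasureTheory ProbabilityTheory Filter Topology Set Polynomial
open scoped ENNReal NNReal

namespace Pool.Agent.Helper553.Kac

/-- Dyadic grid of `[-1, 1]`. -/
noncomputable def grid (k i : ℕ) : ℝ := -1 + 2 * i / 2 ^ k

/-- Number of sign changes on the grid. -/
noncomputable def sc (k : ℕ) (f : ℝ → ℝ) : ℝ≥0∞ :=
  ∑ i ∈ Finset.range (2 ^ k), (Set.Iio (0 : ℝ)).indicator (fun _ => (1 : ℝ≥0∞))
    (f (grid k i) * f (grid k (i + 1)))

theorem exists_gap (R : Finset ℝ) : ∃ δ : ℝ, 0 < δ ∧ ∀ r ∈ R, ∀ r' ∈ R, r ≠ r' → δ ≤ |r - r'| := by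
  classical
  by_cases h : R.offDiag.Nonempty
  · obtain ⟨p, hp, hmin⟩ := R.offDiag.exists_min_image (fun p => |p.1 - p.2|) h
    refine ⟨|p.1 - p.2|, ?_, ?_⟩
    · rw [Finset.mem_offDiag] at hp
      exact abs_pos.mpr (sub_ne_zero.mpr hp.2.2)
    · intro r hr r' hr' hne
      exact hmin (r, r') (Finset.mem_offDiag.mpr ⟨hr, hr', hne⟩)
  · refine ⟨1, one_pos, ?_⟩
    intro r hr r' hr' hne
    exact absurd ⟨(r, r'), Finset.mem_offDiag.mpr ⟨hr, hr', hne⟩⟩ h

/-- A simple root isolated in a cell gives a sign change. -/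
theorem sign_change {P : ℝ[X]} {r s t : ℝ} (hr : P.eval r = 0) (hd : P.derivative.eval r ≠ 0)
    (hs : s < r) (ht : r < t) (hiso : ∀ x ∈ Icc s t, P.eval x = 0 → x = r) :
    P.eval s * P.eval t < 0 := by
  obtain ⟨Q, hQ⟩ := dvd_iff_isRoot.mpr hr
  have hQr : Q.eval r ≠ 0 := by
    intro h
    apply hd
    rw [hQ]
    simp [h]
  have hQ0 : ∀ x ∈ Icc s t, Q.eval x ≠ 0 := by
    intro x hx h
    have : P.eval x = 0 := by rw [hQ, eval_mul, h, mul_zero]
    have := hiso x hx this
    rw [this] at h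
    exact hQr h
  have hpos : 0 < Q.eval s * Q.eval t := by
    by_contra hcon
    push Not at hcon
    have hs0 := hQ0 s ⟨le_refl _, (hs.trans ht).le⟩
    have ht0 := hQ0 t ⟨(hs.trans ht).le, le_refl _⟩
    have hst : s ≤ t := (hs.trans ht).le
    have hcont : ContinuousOn (fun x => Q.eval x) (Icc s t) := Q.continuous.continuousOn
    rcases lt_or_gt_of_ne hs0 with h1 | h1
    · have h2 : 0 ≤ Q.eval t := by
        by_contra h3
        push Not at h3
        have := mul_pos_of_neg_of_neg h1 h3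
        linarith
      obtain ⟨x, hx, hx0⟩ := intermediate_value_Icc hst hcont ⟨h1.le, h2⟩
      exact hQ0 x hx hx0
    · have h2 : Q.eval t ≤ 0 := by
        by_contra h3
        push Not at h3
        have := mul_pos h1 h3
        linarith
      obtain ⟨x, hx, hx0⟩ := intermediate_value_Icc' hst hcont ⟨h2, h1.le⟩
      exact hQ0 x hx hx0
  rw [hQ, eval_mul, eval_mul]
  simp only [eval_sub, eval_X, eval_C]
  have h1 : (s - r) * (t - r) < 0 := mul_neg_of_neg_of_pos (by linarith) (by linarith)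
  have h2 : (s - r) * Q.eval s * ((t - r) * Q.eval t) =
      ((s - r) * (t - r)) * (Q.eval s * Q.eval t) := by ring
  rw [h2]
  exact mul_neg_of_neg_of_pos h1 hpos

theorem grid_zero (k : ℕ) : grid k 0 = -1 := by simp [grid]
theorem grid_last (k : ℕ) : grid k (2 ^ k) = 1 := by
  unfold grid; push_cast; field_simp; norm_num

theorem grid_mono (k : ℕ) {i j : ℕ} (h : i ≤ j) : grid k i ≤ grid k j := by
  unfold grid
  have : (i : ℝ) ≤ j := by exact_mod_cast h
  gcongr

/-- The cell of a point. -/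
theorem exists_cell (k : ℕ) {r : ℝ} (h1 : -1 < r) (h2 : r < 1) :
    ∃ i : ℕ, i < 2 ^ k ∧ grid k i ≤ r ∧ r < grid k (i + 1) := by
  have hk : (0 : ℝ) < 2 ^ k := by positivity
  have hnn : 0 ≤ (r + 1) * 2 ^ k / 2 := by
    have : 0 ≤ r + 1 := by linarith
    positivity
  refine ⟨⌊(r + 1) * 2 ^ k / 2⌋₊, ?_, ?_, ?_⟩
  · rw [Nat.floor_lt hnn]
    push_cast
    nlinarith
  · have := Nat.floor_le hnn
    unfold grid
    have h3 : 2 * (⌊(r + 1) * 2 ^ k / 2⌋₊ : ℝ) / 2 ^ k ≤ r + 1 := by
      rw [div_le_iff₀ hk]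
      linarith
    linarith
  · have := Nat.lt_floor_add_one ((r + 1) * 2 ^ k / 2)
    unfold grid
    push_cast
    have h3 : r + 1 < 2 * ((⌊(r + 1) * 2 ^ k / 2⌋₊ : ℝ) + 1) / 2 ^ k := by
      rw [lt_div_iff₀ hk]
      linarith
    linarith

theorem card_le_sc (P : ℝ[X]) (R : Finset ℝ) (hR : ∀ r ∈ R, P.eval r = 0 ∧ -1 < r ∧ r < 1)
    (hRall : ∀ r, -1 < r → r < 1 → P.eval r = 0 → r ∈ R)
    (hsimple : ∀ r ∈ R, P.derivative.eval r ≠ 0)
    (hgrid : ∀ k i : ℕ, P.eval (grid k i) ≠ 0) :
    ∀ᶠ k in atTop, (R.card : ℝ≥0∞) ≤ sc k (fun t => P.eval t) := by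
  classical
  obtain ⟨δ, hδ, hgap⟩ := exists_gap R
  have htend : Tendsto (fun k : ℕ => 2 * (1 / 2 : ℝ) ^ k) atTop (𝓝 0) := by
    have := (tendsto_pow_atTop_nhds_zero_of_lt_one (r := (1 / 2 : ℝ)) (by norm_num)
      (by norm_num)).const_mul 2
    simpa using this
  filter_upwards [(tendsto_order.mp htend).2 δ hδ] with k hk
  have hmesh : ∀ i, grid k (i + 1) - grid k i = 2 * (1 / 2 : ℝ) ^ k := by
    intro i
    unfold grid
    push_cast
    rw [one_div, inv_pow]
    field_simp
    ring
  have hcell : ∀ r ∈ R, ∃ i : ℕ, i < 2 ^ k ∧ grid k i < r ∧ r < grid k (i + 1) := by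
    intro r hr
    obtain ⟨h0, h1, h2⟩ := hR r hr
    obtain ⟨i, hi, hi1, hi2⟩ := exists_cell k h1 h2
    refine ⟨i, hi, lt_of_le_of_ne hi1 ?_, hi2⟩
    intro h
    apply hgrid k i
    rw [h]; exact h0
  choose! f hf using hcell
  have hinj : Set.InjOn f R := by
    intro r hr r' hr' heq
    by_contra hne
    have h1 := hgap r hr r' hr' hne
    have h2 := hf r hr
    have h3 := hf r' hr'
    rw [heq] at h2
    have h4 := hmesh (f r')
    have : |r - r'| < δ := by
      rw [abs_lt]
      constructor <;> linarith [h2.2.1, h2.2.2, h3.2.1, h3.2.2]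
    linarith
  have himg : R.image f ⊆ (Finset.range (2 ^ k)).filter
      (fun i => P.eval (grid k i) * P.eval (grid k (i + 1)) < 0) := by
    intro i hi
    obtain ⟨r, hr, rfl⟩ := Finset.mem_image.mp hi
    obtain ⟨h1, h2, h3⟩ := hf r hr
    rw [Finset.mem_filter, Finset.mem_range]
    refine ⟨h1, sign_change (hR r hr).1 (hsimple r hr) h2 h3 ?_⟩
    intro x hx hx0
    by_contra hne
    have hx1 : -1 ≤ x := by
      rw [← grid_zero k]
      exact (grid_mono k (Nat.zero_le _)).trans hx.1
    have hx2 : x ≤ 1 := by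
      rw [← grid_last k]
      exact hx.2.trans (grid_mono k (by omega))
    have hx1' : -1 < x := by
      apply lt_of_le_of_ne hx1
      intro h
      apply hgrid k 0
      rw [grid_zero, h]; exact hx0
    have hx2' : x < 1 := by
      apply lt_of_le_of_ne hx2
      intro h
      apply hgrid k (2 ^ k)
      rw [grid_last, ← h]; exact hx0
    have hxR := hRall x hx1' hx2' hx0
    have h5 := hgap x hxR r hr hne
    have h4 := hmesh (f r)
    have : |x - r| < δ := by
      rw [abs_lt]
      constructor <;> linarith [hx.1, hx.2]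
    linarith
  have hcard : R.card ≤ ((Finset.range (2 ^ k)).filter
      (fun i => P.eval (grid k i) * P.eval (grid k (i + 1)) < 0)).card := by
    rw [← Finset.card_image_of_injOn hinj]
    exact Finset.card_le_card himg
  have hsc : sc k (fun t => P.eval t) = (((Finset.range (2 ^ k)).filter
      (fun i => P.eval (grid k i) * P.eval (grid k (i + 1)) < 0)).card : ℝ≥0∞) := by
    unfold sc
    rw [Finset.card_filter, Nat.cast_sum]
    apply Finset.sum_congr rfl
    intro i _
    by_cases h : P.eval (grid k i) * P.eval (grid k (i + 1)) < 0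
    · rw [indicator_of_mem (by exact h), if_pos h]; simp
    · rw [indicator_of_notMem (by exact h), if_neg h]; simp
  rw [hsc]
  exact_mod_cast hcard

/-- The polynomial and its reversal bound the number of real roots. -/
theorem roots_card_le (P Q : ℝ[X]) (n : ℕ) (hP0 : P ≠ 0) (hQ0 : Q ≠ 0)
    (hrev : ∀ t : ℝ, t ≠ 0 → Q.eval t⁻¹ = (t⁻¹) ^ n * P.eval t)
    (hPs : ∀ r, P.eval r = 0 → P.derivative.eval r ≠ 0)
    (hQs : ∀ r, Q.eval r = 0 → Q.derivative.eval r ≠ 0)
    (hPg : ∀ k i : ℕ, P.eval (grid k i) ≠ 0) (hQg : ∀ k i : ℕ, Q.eval (grid k i) ≠ 0) :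
    (P.roots.card : ℝ≥0∞) ≤ liminf (fun k => sc k (fun t => P.eval t)) atTop +
      liminf (fun k => sc k (fun t => Q.eval t)) atTop := by
  classical
  have hnodup : P.roots.Nodup := by
    rw [Multiset.nodup_iff_count_le_one]
    intro r
    rw [count_roots]
    by_contra hcon
    push Not at hcon
    have h1 : P.IsRoot r := by
      rw [← rootMultiplicity_pos hP0]; omega
    have h2 := (one_lt_rootMultiplicity_iff_isRoot hP0).mp hcon
    exact hPs r h1 h2.2
  have hcard : P.roots.card = P.roots.toFinset.card := by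
    rw [Multiset.toFinset_card_of_nodup hnodup]
  let R₁ := P.roots.toFinset.filter (fun r => -1 < r ∧ r < 1)
  let R₂ := P.roots.toFinset.filter (fun r => ¬ (-1 < r ∧ r < 1))
  let R₃ := Q.roots.toFinset.filter (fun r => -1 < r ∧ r < 1)
  have h12 : P.roots.toFinset.card = R₁.card + R₂.card :=
    (Finset.card_filter_add_card_filter_not _).symm
  have h1 : ∀ᶠ k in atTop, (R₁.card : ℝ≥0∞) ≤ sc k (fun t => P.eval t) := by
    apply card_le_sc P R₁
    · intro r hr
      have := Finset.mem_filter.mp hr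
      rw [Multiset.mem_toFinset, mem_roots hP0] at this
      exact ⟨this.1, this.2.1, this.2.2⟩
    · intro r hr1 hr2 hr0
      apply Finset.mem_filter.mpr
      rw [Multiset.mem_toFinset, mem_roots hP0]
      exact ⟨hr0, hr1, hr2⟩
    · intro r hr
      have := Finset.mem_filter.mp hr
      rw [Multiset.mem_toFinset, mem_roots hP0] at this
      exact hPs r this.1
    · exact hPg
  have h3 : ∀ᶠ k in atTop, (R₃.card : ℝ≥0∞) ≤ sc k (fun t => Q.eval t) := by
    apply card_le_sc Q R₃
    · intro r hr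
      have := Finset.mem_filter.mp hr
      rw [Multiset.mem_toFinset, mem_roots hQ0] at this
      exact ⟨this.1, this.2.1, this.2.2⟩
    · intro r hr1 hr2 hr0
      apply Finset.mem_filter.mpr
      rw [Multiset.mem_toFinset, mem_roots hQ0]
      exact ⟨hr0, hr1, hr2⟩
    · intro r hr
      have := Finset.mem_filter.mp hr
      rw [Multiset.mem_toFinset, mem_roots hQ0] at this
      exact hQs r this.1
    · exact hQg
  have h23 : R₂.card ≤ R₃.card := by
    apply Finset.card_le_card_of_injOn (fun r => r⁻¹)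
    · intro r hr
      have h4 := Finset.mem_filter.mp hr
      rw [Multiset.mem_toFinset, mem_roots hP0] at h4
      have hr0 : P.eval r = 0 := h4.1
      have hr1 : r ≠ 1 := by
        intro h; apply hPg 0 (2 ^ 0); rw [grid_last, ← h]; exact hr0
      have hr2 : r ≠ -1 := by
        intro h; apply hPg 0 0; rw [grid_zero, ← h]; exact hr0
      have hrr : r < -1 ∨ 1 < r := by
        by_contra hcon
        push Not at hcon
        exact h4.2 ⟨lt_of_le_of_ne hcon.1 (Ne.symm hr2), lt_of_le_of_ne hcon.2 hr1⟩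
      have hrne : r ≠ 0 := by
        rintro rfl
        rcases hrr with h | h <;> linarith
      refine Finset.mem_coe.mpr (Finset.mem_filter.mpr ?_)
      rw [Multiset.mem_toFinset, mem_roots hQ0]
      refine ⟨?_, ?_, ?_⟩
      · show Q.eval r⁻¹ = 0
        rw [hrev r hrne, hr0, mul_zero]
      · rcases hrr with h | h
        · rw [lt_inv_of_neg (by norm_num) (by linarith)]
          norm_num
          linarith
        · have : 0 < r⁻¹ := inv_pos.mpr (by linarith)
          linarith
      · rcases hrr with h | h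
        · have : r⁻¹ < 0 := inv_lt_zero.mpr (by linarith)
          linarith
        · exact inv_lt_one_of_one_lt₀ h
    · intro r _ r' _ h
      exact inv_injective h
  have h4 : (R₁.card : ℝ≥0∞) ≤ liminf (fun k => sc k (fun t => P.eval t)) atTop :=
    le_liminf_of_le (by isBoundedDefault) h1
  have h5 : (R₃.card : ℝ≥0∞) ≤ liminf (fun k => sc k (fun t => Q.eval t)) atTop :=
    le_liminf_of_le (by isBoundedDefault) h3
  rw [hcard, h12, Nat.cast_add]
  apply add_le_add h4
  refine le_trans ?_ h5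
  exact_mod_cast h23

end Pool.Agent.Helper553.Kac
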