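import Mathlib

set_option autoImplicit false
open MeasureTheory ProbabilityTheory Filter Topology Set InnerProductGeometry
open scoped ENNReal NNReal RealInnerProductSpace

namespace Pool.Agent.Helper553.Kac

variable {E : Type} [NormedAddCommGroup E] [InnerProductSpace ℝ E] [FiniteDimensional ℝ E]
  [MeasurableSpace E] [BorelSpace E]

theorem prod_law (u e : E) (hu : ‖u‖ = 1) (he : ‖e‖ = 1) (hue : ⟪u, e⟫ = 0) :
    (stdGaussian E).map (fun g => (⟪g, u⟫, ⟪g, e⟫)) =
      (gaussianReal 0 1).prod (gaussianReal 0 1) := by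
  have hmeas : Measurable (fun g : E => (⟪g, u⟫, ⟪g, e⟫)) := by fun_prop
  have : IsProbabilityMeasure ((stdGaussian E).map (fun g => (⟪g, u⟫, ⟪g, e⟫))) :=
    Measure.isProbabilityMeasure_map hmeas.aemeasurable
  rw [← charFun_eq_prod_iff]
  intro t
  rw [charFun_apply, integral_map (by fun_prop) (by fun_prop), integral_map (by fun_prop) (by fun_prop)]
  have h1 : ∀ g : E, ⟪WithLp.toLp 2 ((⟪g, u⟫ : ℝ), (⟪g, e⟫ : ℝ)), t⟫ =
      ⟪g, t.fst • u + t.snd • e⟫ := by
    intro g
    rw [WithLp.prod_inner_apply]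
    simp only [inner_add_right, inner_smul_right]
    simp [mul_comm]
  simp only [h1]
  rw [← charFun_apply, charFun_stdGaussian, charFun_gaussianReal, charFun_gaussianReal, ← Complex.exp_add]
  have h2 : ‖t.fst • u + t.snd • e‖ ^ 2 = t.fst ^ 2 + t.snd ^ 2 := by
    rw [← real_inner_self_eq_norm_sq, inner_add_left, inner_add_right, inner_add_right]
    simp only [inner_smul_left, inner_smul_right, hue, real_inner_comm]
    rw [real_inner_self_eq_norm_sq, real_inner_self_eq_norm_sq, hu, he]
    simp only [conj_trivial]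
    ring
  congr 1
  rw [← Complex.ofReal_pow, h2]
  simp
  ring

/-- The product of two standard Gaussians. -/
noncomputable abbrev gg : Measure (ℝ × ℝ) := (gaussianReal 0 1).prod (gaussianReal 0 1)

theorem gg_eq : gg = volume.withDensity (fun p : ℝ × ℝ => gaussianPDF 0 1 p.1 * gaussianPDF 0 1 p.2) := by
  unfold gg
  rw [gaussianReal_of_var_ne_zero 0 one_ne_zero,
    prod_withDensity (measurable_gaussianPDF 0 1) (measurable_gaussianPDF 0 1)]
  rfl

theorem gpdf_polar (r θ : ℝ) : gaussianPDF 0 1 (r * Real.cos θ) * gaussianPDF 0 1 (r * Real.sin θ) =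
    ENNReal.ofReal (1 / (2 * Real.pi) * Real.exp (-r ^ 2 / 2)) := by
  rw [gaussianPDF, gaussianPDF, ← ENNReal.ofReal_mul (gaussianPDFReal_nonneg _ _ _)]
  congr 1
  simp only [gaussianPDFReal, NNReal.coe_one, mul_one, sub_zero]
  rw [mul_mul_mul_comm, ← Real.exp_add, ← mul_inv, Real.mul_self_sqrt (by positivity)]
  have h : -(r * Real.cos θ) ^ 2 / 2 + -(r * Real.sin θ) ^ 2 / 2 = -r ^ 2 / 2 := by
    have := Real.sin_sq_add_cos_sq θ
    have h3 : -(r * Real.cos θ) ^ 2 / 2 + -(r * Real.sin θ) ^ 2 / 2 =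
      -r ^ 2 / 2 * (Real.sin θ ^ 2 + Real.cos θ ^ 2) := by ring
    rw [h3, this, mul_one]
  rw [h, one_div]

/-- Mass of a cone in terms of its set of angles. -/
theorem gg_cone (S : Set (ℝ × ℝ)) (A : Set ℝ) (hS : MeasurableSet S) (hA : MeasurableSet A)
    (h : ∀ r θ : ℝ, 0 < r → ((r * Real.cos θ, r * Real.sin θ) ∈ S ↔ θ ∈ A)) :
    gg S = (∫⁻ r in Ioi (0 : ℝ), ENNReal.ofReal r *
      ENNReal.ofReal (1 / (2 * Real.pi) * Real.exp (-r ^ 2 / 2))) *
        volume (A ∩ Ioo (-Real.pi) Real.pi) := by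
  rw [gg_eq, withDensity_apply _ hS, ← lintegral_indicator hS, ← lintegral_comp_polarCoord_symm]
  have h1 : ∀ q ∈ polarCoord.target, ENNReal.ofReal q.1 • (S.indicator
      (fun p : ℝ × ℝ => gaussianPDF 0 1 p.1 * gaussianPDF 0 1 p.2)) (polarCoord.symm q) =
      (ENNReal.ofReal q.1 * ENNReal.ofReal (1 / (2 * Real.pi) * Real.exp (-q.1 ^ 2 / 2))) *
        A.indicator 1 q.2 := by
    rintro ⟨r, θ⟩ hq
    have hr : 0 < r := hq.1
    have h2 : polarCoord.symm (r, θ) = (r * Real.cos θ, r * Real.sin θ) := rfl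
    rw [h2]
    by_cases hθ : θ ∈ A
    · rw [indicator_of_mem ((h r θ hr).mpr hθ), indicator_of_mem hθ]
      simp only [gpdf_polar, smul_eq_mul, Pi.one_apply, mul_one]
    · rw [indicator_of_notMem (fun h3 => hθ ((h r θ hr).mp h3)), indicator_of_notMem hθ]
      simp
  rw [setLIntegral_congr_fun polarCoord.open_target.measurableSet h1]
  have h3 : polarCoord.target = Ioi (0 : ℝ) ×ˢ Ioo (-Real.pi) Real.pi := rfl
  rw [h3, Measure.volume_eq_prod, ← Measure.prod_restrict,
    lintegral_prod_mul (f := fun r : ℝ => ENNReal.ofReal r *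
      ENNReal.ofReal (1 / (2 * Real.pi) * Real.exp (-r ^ 2 / 2))) (g := A.indicator 1)
      (by fun_prop) ((measurable_one.indicator hA).aemeasurable),
    lintegral_indicator_one hA, Measure.restrict_apply hA]

theorem radial_const : (∫⁻ r in Ioi (0 : ℝ), ENNReal.ofReal r *
      ENNReal.ofReal (1 / (2 * Real.pi) * Real.exp (-r ^ 2 / 2))) * ENNReal.ofReal (2 * Real.pi)
      = 1 := by
  have h := gg_cone univ univ MeasurableSet.univ MeasurableSet.univ (by simp)
  rw [univ_inter, Real.volume_Ioo, measure_univ] at h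
  rw [h]
  congr 2
  ring

theorem angle_set (α : ℝ) (h0 : 0 ≤ α) (_hπ : α ≤ Real.pi) :
    {θ : ℝ | Real.cos θ * Real.cos (θ - α) < 0} ∩ Ioo (-Real.pi) Real.pi ⊆
      Ioo (-(Real.pi / 2)) (α - Real.pi / 2) ∪ (Ioo (Real.pi / 2) (min Real.pi (Real.pi / 2 + α)) ∪
        Ioo (-Real.pi) (α - 3 * Real.pi / 2)) := by
  rintro θ ⟨h1, h2, h3⟩
  simp only [mem_ofPred_eq] at h1
  have hpi := Real.pi_pos
  by_cases ha : 0 < Real.cos θ
  · have hb : Real.cos (θ - α) < 0 := by
      by_contra hcon
      push Not at hcon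
      have := mul_nonneg ha.le hcon
      linarith
    left
    have h4 : -(Real.pi / 2) < θ := by
      by_contra hcon
      push Not at hcon
      have : Real.cos θ ≤ 0 := by
        have h5 := Real.cos_nonpos_of_pi_div_two_le_of_le (x := -θ) (by linarith) (by linarith)
        rwa [Real.cos_neg] at h5
      linarith
    have h5 : θ < Real.pi / 2 := by
      by_contra hcon
      push Not at hcon
      have : Real.cos θ ≤ 0 :=
        Real.cos_nonpos_of_pi_div_two_le_of_le (x := θ) (by linarith) (by linarith)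
      linarith
    refine ⟨h4, ?_⟩
    by_contra hcon
    push Not at hcon
    have := Real.cos_nonneg_of_mem_Icc (x := θ - α) ⟨by linarith, by linarith⟩
    linarith
  · have ha' : Real.cos θ < 0 := by
      rcases (not_lt.mp ha).lt_or_eq with h | h
      · exact h
      · rw [h] at h1; simp at h1
    have hb : 0 < Real.cos (θ - α) := by
      by_contra hcon
      push Not at hcon
      have := mul_nonneg_of_nonpos_of_nonpos ha'.le hcon
      linarith
    right
    by_cases hθ : 0 ≤ θ
    · left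
      have h4 : Real.pi / 2 < θ := by
        by_contra hcon
        push Not at hcon
        have := Real.cos_nonneg_of_mem_Icc (x := θ) ⟨by linarith, by linarith⟩
        linarith
      refine ⟨h4, lt_min h3 ?_⟩
      by_contra hcon
      push Not at hcon
      have := Real.cos_nonpos_of_pi_div_two_le_of_le (x := θ - α) (by linarith) (by linarith)
      linarith
    · right
      push Not at hθ
      refine ⟨h2, ?_⟩
      by_contra hcon
      push Not at hcon
      have h4 : θ < -(Real.pi / 2) := by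
        by_contra hcon2
        push Not at hcon2
        have := Real.cos_nonneg_of_mem_Icc (x := θ) ⟨by linarith, by linarith⟩
        linarith
      have h5 : Real.cos (α - θ) ≤ 0 :=
        Real.cos_nonpos_of_pi_div_two_le_of_le (x := α - θ) (by linarith) (by linarith)
      rw [← Real.cos_neg, neg_sub] at h5
      linarith

theorem wedge (α : ℝ) (h0 : 0 ≤ α) (hπ : α ≤ Real.pi) :
    gg {p : ℝ × ℝ | p.1 * (p.1 * Real.cos α + p.2 * Real.sin α) < 0} ≤
      ENNReal.ofReal (α / Real.pi) := by
  have hpi := Real.pi_pos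
  have hS : MeasurableSet {p : ℝ × ℝ | p.1 * (p.1 * Real.cos α + p.2 * Real.sin α) < 0} :=
    measurableSet_lt (by fun_prop) (by fun_prop)
  have hA : MeasurableSet {θ : ℝ | Real.cos θ * Real.cos (θ - α) < 0} :=
    measurableSet_lt (by fun_prop) (by fun_prop)
  rw [gg_cone _ {θ : ℝ | Real.cos θ * Real.cos (θ - α) < 0} hS hA]
  · have h1 : volume ({θ : ℝ | Real.cos θ * Real.cos (θ - α) < 0} ∩ Ioo (-Real.pi) Real.pi) ≤
        ENNReal.ofReal (2 * α) := by
      refine (measure_mono (angle_set α h0 hπ)).trans ?_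
      refine (measure_union_le _ _).trans ?_
      refine (add_le_add (le_refl _) (measure_union_le _ _)).trans ?_
      rw [Real.volume_Ioo, Real.volume_Ioo, Real.volume_Ioo]
      by_cases hα : α ≤ Real.pi / 2
      · have e3 : ENNReal.ofReal (α - 3 * Real.pi / 2 - -Real.pi) = 0 :=
          ENNReal.ofReal_of_nonpos (by linarith)
        have e2 : min Real.pi (Real.pi / 2 + α) = Real.pi / 2 + α := min_eq_right (by linarith)
        rw [e3, e2, add_zero, ← ENNReal.ofReal_add (by linarith) (by linarith)]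
        apply ENNReal.ofReal_le_ofReal
        linarith
      · push Not at hα
        have e2 : min Real.pi (Real.pi / 2 + α) = Real.pi := min_eq_left (by linarith)
        rw [e2, ← ENNReal.ofReal_add (by linarith) (by linarith),
          ← ENNReal.ofReal_add (by linarith) (by linarith)]
        apply ENNReal.ofReal_le_ofReal
        linarith
    calc _ ≤ (∫⁻ r in Ioi (0 : ℝ), ENNReal.ofReal r *
          ENNReal.ofReal (1 / (2 * Real.pi) * Real.exp (-r ^ 2 / 2))) * ENNReal.ofReal (2 * α) :=
          mul_le_mul_right h1 _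
      _ = (∫⁻ r in Ioi (0 : ℝ), ENNReal.ofReal r *
          ENNReal.ofReal (1 / (2 * Real.pi) * Real.exp (-r ^ 2 / 2))) *
            (ENNReal.ofReal (2 * Real.pi) * ENNReal.ofReal (α / Real.pi)) := by
          rw [← ENNReal.ofReal_mul (by positivity)]
          congr 2
          field_simp
      _ = ENNReal.ofReal (α / Real.pi) := by
          rw [← mul_assoc, radial_const, one_mul]
  · intro r θ hr
    simp only [mem_ofPred_eq]
    have h1 : r * Real.cos θ * (r * Real.cos θ * Real.cos α + r * Real.sin θ * Real.sin α) =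
        r ^ 2 * (Real.cos θ * Real.cos (θ - α)) := by
      rw [Real.cos_sub]; ring
    rw [h1]
    constructor
    · intro h2
      by_contra hcon
      push Not at hcon
      have := mul_nonneg (sq_nonneg r) hcon
      linarith
    · intro h2
      exact mul_neg_of_pos_of_neg (by positivity) h2

/-- Sheppard's formula (upper bound). -/
theorem sheppard (u w : E) :
    stdGaussian E {g | ⟪g, u⟫ * ⟪g, w⟫ < 0} ≤ ENNReal.ofReal (angle u w / Real.pi) := by
  have hpi := Real.pi_pos
  by_cases hu : u = 0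
  · subst hu; simp
  by_cases hw : w = 0
  · subst hw; simp
  have hun : 0 < ‖u‖ := norm_pos_iff.mpr hu
  have hwn : 0 < ‖w‖ := norm_pos_iff.mpr hw
  set α := angle u w with hα
  have hα0 : 0 ≤ α := angle_nonneg u w
  have hαπ : α ≤ Real.pi := angle_le_pi u w
  have hcos : Real.cos α = ⟪u, w⟫ / (‖u‖ * ‖w‖) := cos_angle u w
  by_cases hs : Real.sin α = 0
  · rcases (Real.sin_eq_zero_iff_of_lt_of_lt (x := α) · ·) with _
    by_cases hα1 : α = Real.pi
    · rw [hα1, div_self hpi.ne', ENNReal.ofReal_one]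
      exact prob_le_one
    · have hα2 : α = 0 := by
        have := Real.sin_pos_of_pos_of_lt_pi (x := α)
        by_contra hne
        have h3 := this (lt_of_le_of_ne hα0 (Ne.symm hne)) (lt_of_le_of_ne hαπ hα1)
        linarith
      have h4 := (angle_eq_zero_iff).mp (hα.symm.trans hα2)
      obtain ⟨_, r, hr, rfl⟩ := h4
      have : {g : E | ⟪g, u⟫ * ⟪g, r • u⟫ < 0} = ∅ := by
        ext g
        simp only [mem_ofPred_eq, mem_empty_iff_false, iff_false, not_lt]
        rw [inner_smul_right]
        nlinarith [mul_self_nonneg ⟪g, u⟫]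
      rw [this]; simp
  · have hsin : 0 < Real.sin α := by
      rcases (Real.sin_nonneg_of_nonneg_of_le_pi hα0 hαπ).lt_or_eq with h | h
      · exact h
      · exact absurd h.symm hs
    obtain ⟨û, hû⟩ : ∃ x : E, x = (‖u‖)⁻¹ • u := ⟨_, rfl⟩
    obtain ⟨ŵ, hŵ⟩ : ∃ x : E, x = (‖w‖)⁻¹ • w := ⟨_, rfl⟩
    obtain ⟨e, he⟩ : ∃ x : E, x = (Real.sin α)⁻¹ • (ŵ - Real.cos α • û) := ⟨_, rfl⟩
    have hûn : ‖û‖ = 1 := by
      rw [hû, norm_smul, norm_inv, norm_norm, inv_mul_cancel₀ hun.ne']
    have hŵn : ‖ŵ‖ = 1 := by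
      rw [hŵ, norm_smul, norm_inv, norm_norm, inv_mul_cancel₀ hwn.ne']
    have huw : ⟪û, ŵ⟫ = Real.cos α := by
      rw [hû, hŵ, inner_smul_left, inner_smul_right, hcos]
      simp only [conj_trivial]
      field_simp
    have huu : ⟪û, û⟫ = 1 := by rw [real_inner_self_eq_norm_sq, hûn]; norm_num
    have hww : ⟪ŵ, ŵ⟫ = 1 := by rw [real_inner_self_eq_norm_sq, hŵn]; norm_num
    have hue : ⟪û, e⟫ = 0 := by
      rw [he, inner_smul_right, inner_sub_right, inner_smul_right, huw, huu]
      ring
    have hee : ‖e‖ = 1 := by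
      have h5 : ‖e‖ ^ 2 = 1 := by
        rw [← real_inner_self_eq_norm_sq, he, inner_smul_left, inner_smul_right, inner_sub_left,
          inner_sub_right, inner_sub_right, inner_smul_left, inner_smul_left, inner_smul_right,
          inner_smul_right, huw, huu, hww, real_inner_comm, huw]
        simp only [conj_trivial]
        have h6 := Real.sin_sq_add_cos_sq α
        field_simp
        nlinarith
      exact (pow_eq_one_iff_of_nonneg (norm_nonneg e) two_ne_zero).mp h5
    have hŵe : ŵ = Real.cos α • û + Real.sin α • e := by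
      rw [he, smul_smul, mul_inv_cancel₀ hs, one_smul]
      abel
    have hset : {g : E | ⟪g, u⟫ * ⟪g, w⟫ < 0} = (fun g : E => (⟪g, û⟫, ⟪g, e⟫)) ⁻¹'
        {p : ℝ × ℝ | p.1 * (p.1 * Real.cos α + p.2 * Real.sin α) < 0} := by
      ext g
      simp only [mem_ofPred_eq, mem_preimage]
      have h7 : ⟪g, û⟫ * Real.cos α + ⟪g, e⟫ * Real.sin α = ⟪g, ŵ⟫ := by
        rw [hŵe, inner_add_right, inner_smul_right, inner_smul_right]; ring
      rw [h7, hû, hŵ, inner_smul_right, inner_smul_right]
      have h8 : ‖u‖⁻¹ * ⟪g, u⟫ * (‖w‖⁻¹ * ⟪g, w⟫) = (‖u‖⁻¹ * ‖w‖⁻¹) * (⟪g, u⟫ * ⟪g, w⟫) := by ring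
      rw [h8]
      have h9 : 0 < ‖u‖⁻¹ * ‖w‖⁻¹ := by positivity
      constructor
      · intro h; exact mul_neg_of_pos_of_neg h9 h
      · intro h
        by_contra hcon
        push Not at hcon
        have := mul_nonneg h9.le hcon
        linarith
    rw [hset, ← Measure.map_apply (by fun_prop) (measurableSet_lt (by fun_prop) (by fun_prop)),
      prod_law û e hûn hee hue]
    exact wedge α hα0 hαπ

end Pool.Agent.Helper553.Kac
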