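import Mathlib

set_option autoImplicit false
open MeasureTheory ProbabilityTheory Filter Topology Set Polynomial
open scoped ENNReal NNReal

namespace Pool.Agent.Helper553.Kac

/-- Standard Gaussian vector. -/
noncomputable abbrev gpi (n : ℕ) : Measure (Fin n → ℝ) := Measure.pi (fun _ => gaussianReal 0 1)

theorem gamma_singleton (x : ℝ) : gaussianReal 0 1 {x} = 0 := by
  have := noAtoms_gaussianReal (μ := 0) (v := 1) one_ne_zero
  exact measure_singleton x

theorem gamma_finset (s : Finset ℝ) : gaussianReal 0 1 (s : Set ℝ) = 0 := by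
  have := noAtoms_gaussianReal (μ := 0) (v := 1) one_ne_zero
  exact s.measure_zero _

theorem null_of_fiber {n : ℕ} (i0 : Fin (n + 1)) (B : Set (Fin (n + 1) → ℝ)) (hB : MeasurableSet B)
    (h : ∀ᵐ y ∂(gpi n), gaussianReal 0 1 {c : ℝ | i0.insertNth c y ∈ B} = 0) :
    gpi (n + 1) B = 0 := by
  have hmp := measurePreserving_piFinSuccAbove (fun _ : Fin (n + 1) => gaussianReal 0 1) i0
  let e := MeasurableEquiv.piFinSuccAbove (fun _ : Fin (n + 1) => ℝ) i0
  have h1 : B = e ⁻¹' (e.symm ⁻¹' B) := by
    ext x; simp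
  have hS : MeasurableSet (e.symm ⁻¹' B) := e.symm.measurable hB
  rw [h1, hmp.measure_preimage hS.nullMeasurableSet, Measure.prod_apply_symm hS]
  rw [lintegral_eq_zero_iff (measurable_measure_prodMk_right hS)]
  filter_upwards [h] with y hy
  exact hy

/-- Evaluation. -/
noncomputable def F {n : ℕ} (d : Fin n → ℕ) (x : Fin n → ℝ) (t : ℝ) : ℝ := ∑ j, x j * t ^ d j
/-- Evaluation of the derivative. -/
noncomputable def G {n : ℕ} (d : Fin n → ℕ) (x : Fin n → ℝ) (t : ℝ) : ℝ :=
  ∑ j, x j * (d j * t ^ (d j - 1))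

/-- Coefficient vectors with a multiple root. -/
def Bad {n : ℕ} (d : Fin n → ℕ) : Set (Fin n → ℝ) := {x | ∃ t, F d x t = 0 ∧ G d x t = 0}

theorem bad_meas {n : ℕ} (d : Fin n → ℕ) : MeasurableSet (Bad d) := by
  have h : Bad d = ⋃ M : ℕ, Prod.snd '' {p : Icc (-(M : ℝ)) M × (Fin n → ℝ) |
      F d p.2 p.1 = 0 ∧ G d p.2 p.1 = 0} := by
    ext x
    simp only [Bad, mem_ofPred_eq, mem_iUnion, mem_image, Prod.exists, exists_eq_right]
    constructor
    · rintro ⟨t, ht⟩
      obtain ⟨M, hM⟩ := exists_nat_ge |t|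
      exact ⟨M, ⟨t, abs_le.mp hM⟩, ht⟩
    · rintro ⟨M, t, ht⟩
      exact ⟨t, ht⟩
  rw [h]
  apply MeasurableSet.iUnion
  intro M
  have : CompactSpace (Icc (-(M : ℝ)) M) := isCompact_iff_compactSpace.mp isCompact_Icc
  apply IsClosed.measurableSet
  apply isClosedMap_snd_of_compactSpace
  apply IsClosed.inter
  · apply isClosed_eq _ continuous_const
    unfold F
    fun_prop
  · apply isClosed_eq _ continuous_const
    unfold G
    fun_prop

theorem bad_null {n : ℕ} (hn : 1 ≤ n) (d : Fin (n + 1) → ℕ) (hd : Function.Injective d)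
    (i0 : Fin (n + 1)) (hi0 : d i0 = 0) : gpi (n + 1) (Bad d) = 0 := by
  classical
  apply null_of_fiber i0 _ (bad_meas d)
  have hne : ∀ᵐ y ∂(gpi n), y ≠ 0 := by
    have : gpi n {0} = 0 := by
      unfold gpi
      rw [Measure.pi_singleton]
      apply Finset.prod_eq_zero (Finset.mem_univ (⟨0, hn⟩ : Fin n))
      exact gamma_singleton _
    exact measure_eq_zero_iff_ae_notMem.mp this
  filter_upwards [hne] with y hy
  obtain ⟨j0, hj0⟩ := Function.ne_iff.mp hy
  let D : ℝ[X] := ∑ j : Fin n, C (y j * d (i0.succAbove j)) * X ^ (d (i0.succAbove j) - 1)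
  have hdpos : ∀ j : Fin n, 1 ≤ d (i0.succAbove j) := by
    intro j
    rw [Nat.one_le_iff_ne_zero]
    intro h
    exact Fin.succAbove_ne i0 j (hd (h.trans hi0.symm))
  have hD : D ≠ 0 := by
    intro h
    have h1 : D.coeff (d (i0.succAbove j0) - 1) = y j0 * d (i0.succAbove j0) := by
      simp only [D, finsetSum_coeff, coeff_C_mul, coeff_X_pow]
      rw [Finset.sum_eq_single j0]
      · simp
      · intro j _ hj
        rw [if_neg, mul_zero]
        intro h2
        have h3 : d (i0.succAbove j0) = d (i0.succAbove j) := by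
          have := hdpos j
          have := hdpos j0
          omega
        exact hj (i0.succAbove_right_injective (hd h3)).symm
      · intro h; exact absurd (Finset.mem_univ _) h
    rw [h, coeff_zero] at h1
    have h2 : (d (i0.succAbove j0) : ℝ) ≠ 0 := by
      have := hdpos j0
      positivity
    exact hj0 (by simpa [h2] using h1.symm)
  have hsub : {c : ℝ | i0.insertNth c y ∈ Bad d} ⊆
      ((D.roots.toFinset.image (fun t => -(∑ j : Fin n, y j * t ^ d (i0.succAbove j))) : Finset ℝ) :
        Set ℝ) := by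
    rintro c ⟨t, ht1, ht2⟩
    rw [F, Fin.sum_univ_succAbove _ i0] at ht1
    rw [G, Fin.sum_univ_succAbove _ i0] at ht2
    simp only [Fin.insertNth_apply_same, Fin.insertNth_apply_succAbove, hi0, pow_zero, mul_one,
      Nat.cast_zero, zero_mul, mul_zero, zero_add] at ht1 ht2
    rw [Finset.mem_coe, Finset.mem_image]
    refine ⟨t, ?_, by linarith⟩
    rw [Multiset.mem_toFinset, mem_roots hD]
    show D.eval t = 0
    simp only [D, eval_finsetSum, eval_mul, eval_C, eval_pow, eval_X]
    rw [← ht2]
    apply Finset.sum_congr rfl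
    intro j _
    ring
  exact measure_mono_null hsub (gamma_finset _)

theorem eval_null {n : ℕ} (d : Fin (n + 1) → ℕ) (i0 : Fin (n + 1)) (hi0 : d i0 = 0) (t : ℝ) :
    gpi (n + 1) {x | F d x t = 0} = 0 := by
  apply null_of_fiber i0
  · apply IsClosed.measurableSet
    apply isClosed_eq _ continuous_const
    unfold F
    fun_prop
  · refine Filter.Eventually.of_forall (fun y => ?_)
    have hsub : {c : ℝ | i0.insertNth c y ∈ {x | F d x t = 0}} ⊆
        {-(∑ j : Fin n, y j * t ^ d (i0.succAbove j))} := by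
      intro c hc
      simp only [mem_ofPred_eq] at hc
      rw [F, Fin.sum_univ_succAbove _ i0] at hc
      simp only [Fin.insertNth_apply_same, Fin.insertNth_apply_succAbove, hi0, pow_zero,
        mul_one] at hc
      rw [mem_singleton_iff]
      linarith
    exact measure_mono_null hsub (gamma_singleton _)

end Pool.Agent.Helper553.Kac
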