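import Pool.Agent.Helper553.Kac.Bounds
import Pool.Agent.Helper553.Kac.Sheppard
import Pool.Agent.Helper553.Kac.Grid
import Pool.Agent.Helper553.Kac.Simple

set_option autoImplicit false
open MeasureTheory ProbabilityTheory Filter Topology Set InnerProductGeometry
open scoped ENNReal NNReal RealInnerProductSpace

namespace Pool.Agent.Helper553.Kac

/-- The law of an infinite sequence of independent standard Gaussians. -/
noncomputable abbrev mu : Measure (ℕ → ℝ) := Measure.infinitePi (fun _ : ℕ => gaussianReal 0 1)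

theorem mu_restrict {n : ℕ} (f : Fin n → ℕ) (hf : Function.Injective f) :
    mu.map (fun a j => a (f j)) = gpi n := by
  have h := Measure.map_infinitePi_infinitePi_of_inj (P := fun _ : ℕ => gaussianReal 0 1) hf
  exact h.trans (Measure.infinitePi_eq_pi (μ := fun _ : Fin n => gaussianReal 0 1))

theorem law_Psi {n : ℕ} (f : Fin (n + 1) → ℕ) (hf : Function.Injective f) :
    ((gaussianReal 0 1).prod mu).map (fun p : ℝ × (ℕ → ℝ) =>
      (WithLp.toLp 2 (Fin.cons p.1 (fun j : Fin (n + 1) => p.2 (f j))) :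
        EuclideanSpace ℝ (Fin (n + 2)))) = stdGaussian (EuclideanSpace ℝ (Fin (n + 2))) := by
  let e := MeasurableEquiv.piFinSuccAbove (fun _ : Fin (n + 2) => ℝ) 0
  have hmp := (measurePreserving_piFinSuccAbove (fun _ : Fin (n + 2) => gaussianReal 0 1) 0).symm
  have h1 : (fun p : ℝ × (ℕ → ℝ) =>
      (WithLp.toLp 2 (Fin.cons p.1 (fun j : Fin (n + 1) => p.2 (f j))) :
        EuclideanSpace ℝ (Fin (n + 2)))) =
      (WithLp.toLp 2) ∘ (e.symm) ∘ (Prod.map id (fun (a : ℕ → ℝ) (j : Fin (n + 1)) => a (f j))) := by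
    funext p
    simp only [Function.comp_apply, Prod.map, id_eq, e]
    congr 1
    ext i
    refine Fin.cases ?_ (fun j => ?_) i
    · simp [MeasurableEquiv.piFinSuccAbove]
    · simp [MeasurableEquiv.piFinSuccAbove]
  have hmeas : Measurable (fun (a : ℕ → ℝ) (j : Fin (n + 1)) => a (f j)) := by fun_prop
  rw [h1, ← Measure.map_map (by fun_prop) (e.symm.measurable.comp (measurable_id.prodMap hmeas)),
    ← Measure.map_map e.symm.measurable (measurable_id.prodMap hmeas),
    ← Measure.map_prod_map _ _ measurable_id hmeas, Measure.map_id, mu_restrict f hf]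
  have h2 : Measure.map (⇑e.symm) ((gaussianReal 0 1).prod (gpi (n + 1))) = gpi (n + 2) := hmp.map_eq
  rw [h2]
  exact map_pi_eq_stdGaussian

/-- Shift direction. -/
noncomputable def sv (n m : ℕ) (j : ℕ) : ℝ :=
  ∑ i ∈ Finset.range (m + 1), if j = n - 2 * i then c i else 0

/-- The majorant of the number of real roots. -/
noncomputable def T (n : ℕ) (a : ℕ → ℝ) : ℝ≥0∞ :=
  liminf (fun k => sc k (fun t => ∑ i ∈ Finset.range (n + 1), a i * t ^ i)) atTop +
    liminf (fun k => sc k (fun t => ∑ i ∈ Finset.range (n + 1), a i * t ^ (n - i))) atTop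

theorem sum_sv_fwd {n m : ℕ} (t : ℝ) :
    ∑ j ∈ Finset.range (n + 1), sv n m j * t ^ j = efwd n m t := by
  unfold sv efwd
  simp only [Finset.sum_mul]
  rw [Finset.sum_comm]
  apply Finset.sum_congr rfl
  intro i _
  rw [Finset.sum_eq_single (n - 2 * i)]
  · simp
  · intro j _ hj
    rw [if_neg hj, zero_mul]
  · intro h
    exact absurd (Finset.mem_range.mpr (by omega)) h

theorem sum_sv_rev {n m : ℕ} (hn : 2 * m ≤ n) (t : ℝ) :
    ∑ j ∈ Finset.range (n + 1), sv n m j * t ^ (n - j) = erev m t := by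
  unfold sv erev pm
  simp only [Finset.sum_mul]
  rw [Finset.sum_comm]
  apply Finset.sum_congr rfl
  intro i hi
  have hi' : 2 * i ≤ n := by have := Finset.mem_range.mp hi; omega
  rw [Finset.sum_eq_single (n - 2 * i)]
  · rw [if_pos rfl, ← pow_mul]
    congr 2
    omega
  · intro j _ hj
    rw [if_neg hj, zero_mul]
  · intro h
    exact absurd (Finset.mem_range.mpr (by omega)) h

theorem inner_Psi {n : ℕ} (f : Fin (n + 1) → ℕ) (p : ℝ × (ℕ → ℝ)) (e t : ℝ) :
    ⟪(WithLp.toLp 2 (Fin.cons p.1 (fun j : Fin (n + 1) => p.2 (f j))) :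
        EuclideanSpace ℝ (Fin (n + 2))), vec n e t⟫ =
      (∑ j : Fin (n + 1), p.2 (f j) * t ^ (j : ℕ)) + p.1 * e := by
  unfold vec
  rw [PiLp.inner_apply, Fin.sum_univ_succ]
  simp only [Fin.cons_zero, Fin.cons_succ, RCLike.inner_apply, conj_trivial]
  rw [add_comm, mul_comm e]
  congr 1
  apply Finset.sum_congr rfl
  intro j _
  ring

/-- Expected number of sign changes on a grid. -/
theorem expect_sc {n : ℕ} (f : Fin (n + 1) → ℕ) (hf : Function.Injective f) (e : ℝ → ℝ) {B : ℝ}
    (hB : AngBound (fun t => vec n (e t) t) (-1) 1 B) (k : ℕ) :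
    ∫⁻ p : ℝ × (ℕ → ℝ), sc k (fun t => (∑ j : Fin (n + 1), p.2 (f j) * t ^ (j : ℕ)) + p.1 * e t)
      ∂((gaussianReal 0 1).prod mu) ≤ ENNReal.ofReal (B / Real.pi) := by
  obtain ⟨Λ, hΛ, hΛB⟩ := hB
  have hpi := Real.pi_pos
  unfold sc
  rw [lintegral_finsetSum]
  swap
  · intro i _
    apply Measurable.comp (measurable_const.indicator measurableSet_Iio)
    fun_prop
  have hstep : ∀ i ∈ Finset.range (2 ^ k), ∫⁻ p : ℝ × (ℕ → ℝ),
      (Set.Iio (0 : ℝ)).indicator (fun _ => (1 : ℝ≥0∞))
      (((∑ j : Fin (n + 1), p.2 (f j) * grid k i ^ (j : ℕ)) + p.1 * e (grid k i)) *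
        ((∑ j : Fin (n + 1), p.2 (f j) * grid k (i + 1) ^ (j : ℕ)) + p.1 * e (grid k (i + 1))))
      ∂((gaussianReal 0 1).prod mu) ≤
      ENNReal.ofReal ((Λ (grid k (i + 1)) - Λ (grid k i)) / Real.pi) := by
    intro i hi
    have hik : i + 1 ≤ 2 ^ k := Finset.mem_range.mp hi
    have hang := hΛ (grid k i) (grid k (i + 1))
      (by rw [← grid_zero k]; exact grid_mono k (Nat.zero_le _)) (grid_mono k (Nat.le_succ _))
      (by rw [← grid_last k]; exact grid_mono k hik)
    have hsh := sheppard (vec n (e (grid k i)) (grid k i)) (vec n (e (grid k (i + 1))) (grid k (i + 1)))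
    rw [← law_Psi f hf, Measure.map_apply (by fun_prop) (measurableSet_lt (by fun_prop) (by fun_prop))]
      at hsh
    refine le_trans ?_ (hsh.trans (ENNReal.ofReal_le_ofReal
      (div_le_div_of_nonneg_right hang hpi.le)))
    rw [← lintegral_indicator_one]
    · apply lintegral_mono
      intro p
      simp only [indicator, mem_Iio, mem_preimage, mem_ofPred_eq, inner_Psi, Pi.one_apply]
      exact le_refl _
    · apply MeasurableSet.preimage (measurableSet_lt (by fun_prop) (by fun_prop))
      fun_prop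
  refine (Finset.sum_le_sum hstep).trans ?_
  rw [← ENNReal.ofReal_sum_of_nonneg]
  · apply ENNReal.ofReal_le_ofReal
    rw [← Finset.sum_div, Finset.sum_range_sub (fun i => Λ (grid k i)), grid_last, grid_zero]
    exact div_le_div_of_nonneg_right hΛB hpi.le
  · intro i hi
    have hik : i + 1 ≤ 2 ^ k := Finset.mem_range.mp hi
    have hang := hΛ (grid k i) (grid k (i + 1))
      (by rw [← grid_zero k]; exact grid_mono k (Nat.zero_le _)) (grid_mono k (Nat.le_succ _))
      (by rw [← grid_last k]; exact grid_mono k hik)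
    have := angle_nonneg (vec n (e (grid k i)) (grid k i))
      (vec n (e (grid k (i + 1))) (grid k (i + 1)))
    exact div_nonneg (by linarith) hpi.le

theorem measurable_sc {Ω : Type} [MeasurableSpace Ω] (k : ℕ) (f : Ω → ℝ → ℝ)
    (hf : ∀ t, Measurable (fun ω => f ω t)) : Measurable (fun ω => sc k (f ω)) := by
  unfold sc
  apply Finset.measurable_sum
  intro i _
  exact Measurable.comp (measurable_const.indicator measurableSet_Iio) ((hf _).mul (hf _))

theorem measurable_T (n : ℕ) : Measurable (T n) := by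
  unfold T
  apply Measurable.add
  · apply Measurable.liminf
    intro k
    apply measurable_sc
    intro t
    fun_prop
  · apply Measurable.liminf
    intro k
    apply measurable_sc
    intro t
    fun_prop

/-- Expected majorant under the random drift. -/
theorem expect_T {n m : ℕ} (hm : 1 ≤ m) (hn : 4 * m ≤ n) :
    ∫⁻ p : ℝ × (ℕ → ℝ), T n (fun j => p.2 j + p.1 * sv n m j) ∂((gaussianReal 0 1).prod mu) ≤
      ENNReal.ofReal (2 / Real.pi * (Real.log n - 1 / 40 * Real.log m + 12)) := by
  have hpi := Real.pi_pos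
  unfold T
  have hm1 : ∀ k, Measurable (fun p : ℝ × (ℕ → ℝ) =>
      sc k (fun t => ∑ i ∈ Finset.range (n + 1), (p.2 i + p.1 * sv n m i) * t ^ i)) := by
    intro k
    apply measurable_sc
    intro t
    fun_prop
  have hm2 : ∀ k, Measurable (fun p : ℝ × (ℕ → ℝ) =>
      sc k (fun t => ∑ i ∈ Finset.range (n + 1), (p.2 i + p.1 * sv n m i) * t ^ (n - i))) := by
    intro k
    apply measurable_sc
    intro t
    fun_prop
  rw [lintegral_add_left (Measurable.liminf hm1)]
  have e1 : ∀ k, ∫⁻ p : ℝ × (ℕ → ℝ),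
      sc k (fun t => ∑ i ∈ Finset.range (n + 1), (p.2 i + p.1 * sv n m i) * t ^ i)
        ∂((gaussianReal 0 1).prod mu) ≤
      ENNReal.ofReal ((2 * (1 / 2 * Real.log (2 * n) + 1 + Real.pi)) / Real.pi) := by
    intro k
    have h := expect_sc (n := n) (fun j => (j : ℕ)) Fin.val_injective (efwd n m)
      (angBound_fwd_full hm hn) k
    refine le_trans (le_of_eq ?_) h
    apply lintegral_congr
    intro p
    congr 1
    funext t
    rw [← sum_sv_fwd, Finset.mul_sum, Fin.sum_univ_eq_sum_range (fun j => p.2 j * t ^ j),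
      ← Finset.sum_add_distrib]
    apply Finset.sum_congr rfl
    intro i _
    ring
  have e2 : ∀ k, ∫⁻ p : ℝ × (ℕ → ℝ),
      sc k (fun t => ∑ i ∈ Finset.range (n + 1), (p.2 i + p.1 * sv n m i) * t ^ (n - i))
        ∂((gaussianReal 0 1).prod mu) ≤
      ENNReal.ofReal ((2 * (19 / 20 * (1 / 2 * Real.log (8 * m)) +
        (1 / 2 * Real.log (2 * n) - 1 / 2 * Real.log (2 * m)) + 1 + 3 * (Real.pi / 2))) / Real.pi) := by
    intro k
    have hinj : Function.Injective (fun j : Fin (n + 1) => n - (j : ℕ)) := by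
      intro a b hab
      have ha := a.2
      have hb := b.2
      simp only at hab
      ext
      omega
    have h := expect_sc (n := n) (fun j => n - (j : ℕ)) hinj (erev m)
      (angBound_rev_full hm hn) k
    refine le_trans (le_of_eq ?_) h
    apply lintegral_congr
    intro p
    congr 1
    funext t
    rw [← sum_sv_rev (n := n) (by omega), Finset.mul_sum,
      Fin.sum_univ_eq_sum_range (fun j => p.2 (n - j) * t ^ j), ← Finset.sum_range_reflect
        (fun j => p.2 (n - j) * t ^ j), ← Finset.sum_add_distrib]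
    apply Finset.sum_congr rfl
    intro i hi
    have hi' : i ≤ n := by have := Finset.mem_range.mp hi; omega
    have e3 : n + 1 - 1 - i = n - i := by omega
    have e4 : n - (n - i) = i := by omega
    rw [e3, e4]
    ring
  have f1 : ∫⁻ p : ℝ × (ℕ → ℝ), liminf (fun k =>
      sc k (fun t => ∑ i ∈ Finset.range (n + 1), (p.2 i + p.1 * sv n m i) * t ^ i)) atTop
        ∂((gaussianReal 0 1).prod mu) ≤
      ENNReal.ofReal ((2 * (1 / 2 * Real.log (2 * n) + 1 + Real.pi)) / Real.pi) := by
    refine (lintegral_liminf_le hm1).trans ?_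
    exact liminf_le_of_le (by isBoundedDefault) (fun b hb => by
      obtain ⟨k, hk⟩ := hb.exists
      exact hk.trans (e1 k))
  have f2 : ∫⁻ p : ℝ × (ℕ → ℝ), liminf (fun k =>
      sc k (fun t => ∑ i ∈ Finset.range (n + 1), (p.2 i + p.1 * sv n m i) * t ^ (n - i))) atTop
        ∂((gaussianReal 0 1).prod mu) ≤
      ENNReal.ofReal ((2 * (19 / 20 * (1 / 2 * Real.log (8 * m)) +
        (1 / 2 * Real.log (2 * n) - 1 / 2 * Real.log (2 * m)) + 1 + 3 * (Real.pi / 2))) / Real.pi) := by
    refine (lintegral_liminf_le hm2).trans ?_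
    exact liminf_le_of_le (by isBoundedDefault) (fun b hb => by
      obtain ⟨k, hk⟩ := hb.exists
      exact hk.trans (e2 k))
  refine (add_le_add f1 f2).trans ?_
  have hm' : (1 : ℝ) ≤ m := by exact_mod_cast hm
  have hn' : (4 : ℝ) * m ≤ n := by exact_mod_cast hn
  have hl1 : 0 ≤ Real.log (2 * n) := Real.log_nonneg (by linarith)
  have hl2 : 0 ≤ Real.log (8 * m) := Real.log_nonneg (by linarith)
  have hl3 : Real.log (2 * m) ≤ Real.log (2 * n) := Real.log_le_log (by linarith) (by linarith)
  rw [← ENNReal.ofReal_add (by positivity)]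
  · apply ENNReal.ofReal_le_ofReal
    have h1 := total_le hm hn
    have h2 : 2 / Real.pi * (Real.log n - 1 / 40 * Real.log m + 12) =
        (2 * (Real.log n - 1 / 40 * Real.log m + 12)) / Real.pi := by ring
    rw [← add_div, h2]
    exact div_le_div_of_nonneg_right h1 hpi.le
  · apply div_nonneg _ hpi.le
    have : 0 ≤ 1 / 2 * Real.log (2 * n) - 1 / 2 * Real.log (2 * m) := by linarith
    positivity

end Pool.Agent.Helper553.Kac
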