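import Pool.Agent.Helper553.Kac.Shift

set_option autoImplicit false
open MeasureTheory ProbabilityTheory Filter Topology Set Polynomial
open scoped ENNReal NNReal

namespace Pool.Agent.Helper553.Kac

/-! ### Almost sure domination of the number of real roots -/

/-- The Kac polynomial. -/
noncomputable def kp (n : ℕ) (a : ℕ → ℝ) : ℝ[X] := ∑ i ∈ Finset.range (n + 1), C (a i) * X ^ i
/-- The reversed Kac polynomial. -/
noncomputable def kq (n : ℕ) (a : ℕ → ℝ) : ℝ[X] := ∑ i ∈ Finset.range (n + 1), C (a i) * X ^ (n - i)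

theorem kp_eval (n : ℕ) (a : ℕ → ℝ) (t : ℝ) :
    (kp n a).eval t = ∑ i ∈ Finset.range (n + 1), a i * t ^ i := by
  simp [kp, eval_finsetSum]

theorem kq_eval (n : ℕ) (a : ℕ → ℝ) (t : ℝ) :
    (kq n a).eval t = ∑ i ∈ Finset.range (n + 1), a i * t ^ (n - i) := by
  simp [kq, eval_finsetSum]

theorem kp_F (n : ℕ) (a : ℕ → ℝ) (t : ℝ) : (kp n a).eval t =
    F (fun j : Fin (n + 1) => (j : ℕ)) (fun j : Fin (n + 1) => a (j : ℕ)) t := by
  rw [kp_eval, F, Fin.sum_univ_eq_sum_range (fun j => a j * t ^ j)]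

theorem kq_F (n : ℕ) (a : ℕ → ℝ) (t : ℝ) : (kq n a).eval t =
    F (fun j : Fin (n + 1) => n - (j : ℕ)) (fun j : Fin (n + 1) => a (j : ℕ)) t := by
  rw [kq_eval, F, Fin.sum_univ_eq_sum_range (fun j => a j * t ^ (n - j))]

theorem kp_G (n : ℕ) (a : ℕ → ℝ) (t : ℝ) : (kp n a).derivative.eval t =
    G (fun j : Fin (n + 1) => (j : ℕ)) (fun j : Fin (n + 1) => a (j : ℕ)) t := by
  rw [G, Fin.sum_univ_eq_sum_range (fun j => a j * (j * t ^ (j - 1)))]
  simp [kp, eval_finsetSum, derivative_X_pow]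

theorem kq_G (n : ℕ) (a : ℕ → ℝ) (t : ℝ) : (kq n a).derivative.eval t =
    G (fun j : Fin (n + 1) => n - (j : ℕ)) (fun j : Fin (n + 1) => a (j : ℕ)) t := by
  rw [G, Fin.sum_univ_eq_sum_range (fun j => a j * (((n - j : ℕ) : ℝ) * t ^ (n - j - 1)))]
  simp [kq, eval_finsetSum, derivative_X_pow]

theorem ae_restrict {n : ℕ} {B : Set (Fin (n + 1) → ℝ)} (hB : gpi (n + 1) B = 0) :
    ∀ᵐ a ∂mu, (fun j : Fin (n + 1) => a (j : ℕ)) ∉ B := by
  rw [← mu_restrict (fun j : Fin (n + 1) => (j : ℕ)) Fin.val_injective] at hB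
  exact ae_of_ae_map (f := fun (a : ℕ → ℝ) (j : Fin (n + 1)) => a (j : ℕ))
    (measurable_pi_lambda _ (fun j => measurable_pi_apply _)).aemeasurable
    (measure_eq_zero_iff_ae_notMem.mp hB)

theorem ae_roots (n : ℕ) (hn : 1 ≤ n) : ∀ᵐ a ∂mu, ((kp n a).roots.card : ℝ≥0∞) ≤ T n a := by
  have hinj : Function.Injective (fun j : Fin (n + 1) => n - (j : ℕ)) := by
    intro a b hab
    have ha := a.2
    have hb := b.2
    simp only at hab
    ext
    omega
  have h1 := ae_restrict (bad_null hn (fun j : Fin (n + 1) => (j : ℕ)) Fin.val_injective 0 rfl)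
  have h2 := ae_restrict (bad_null hn (fun j : Fin (n + 1) => n - (j : ℕ)) hinj (Fin.last n)
    (by simp))
  have h3 : ∀ᵐ a ∂mu, ∀ k i : ℕ, (kp n a).eval (grid k i) ≠ 0 := by
    rw [ae_all_iff]; intro k
    rw [ae_all_iff]; intro i
    filter_upwards [ae_restrict (eval_null (fun j : Fin (n + 1) => (j : ℕ)) 0 rfl (grid k i))]
      with a ha h
    rw [kp_F] at h
    exact ha h
  have h4 : ∀ᵐ a ∂mu, ∀ k i : ℕ, (kq n a).eval (grid k i) ≠ 0 := by
    rw [ae_all_iff]; intro k
    rw [ae_all_iff]; intro i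
    filter_upwards [ae_restrict (eval_null (fun j : Fin (n + 1) => n - (j : ℕ)) (Fin.last n)
      (by simp) (grid k i))] with a ha h
    rw [kq_F] at h
    exact ha h
  filter_upwards [h1, h2, h3, h4] with a ha1 ha2 ha3 ha4
  have hP0 : kp n a ≠ 0 := by
    intro h; apply ha3 0 0; rw [h, eval_zero]
  have hQ0 : kq n a ≠ 0 := by
    intro h; apply ha4 0 0; rw [h, eval_zero]
  have key := roots_card_le (kp n a) (kq n a) n hP0 hQ0
    (by
      intro t ht
      rw [kp_eval, kq_eval, Finset.mul_sum]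
      apply Finset.sum_congr rfl
      intro i hi
      have hi' : i ≤ n := by have := Finset.mem_range.mp hi; omega
      obtain ⟨k, rfl⟩ := Nat.exists_eq_add_of_le hi'
      rw [Nat.add_sub_cancel_left, pow_add, inv_pow, inv_pow]
      field_simp)
    (by
      intro r hr hd
      apply ha1
      exact ⟨r, by rw [← kp_F]; exact hr, by rw [← kp_G]; exact hd⟩)
    (by
      intro r hr hd
      apply ha2
      exact ⟨r, by rw [← kq_F]; exact hr, by rw [← kq_G]; exact hd⟩)
    ha3 ha4
  unfold T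
  simp only [kp_eval, kq_eval] at key
  exact key

/-! ### Choice of the drift size -/

theorem exp_lower : (256960 : ℝ) ≤ Real.exp (39 / 2) := by
  have h1 := Real.exp_one_gt_d9
  have h2 : (2 : ℝ) ^ 19 ≤ Real.exp 1 ^ 19 := pow_le_pow_left₀ (by norm_num) (by linarith) 19
  have h3 : Real.exp 1 ^ 19 = Real.exp 19 := by
    rw [← Real.exp_nat_mul]; norm_num
  have h4 : Real.exp 19 ≤ Real.exp (39 / 2) := Real.exp_le_exp.mpr (by norm_num)
  calc (256960 : ℝ) ≤ 2 ^ 19 := by norm_num
    _ ≤ Real.exp 1 ^ 19 := h2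
    _ = Real.exp 19 := h3
    _ ≤ _ := h4

theorem lint_exp (s : ℝ) :
    ∫⁻ x, ENNReal.ofReal (Real.exp (s * x - s ^ 2 / 2)) ∂(gaussianReal 0 1) = 1 := by
  have h : (gaussianReal s 1) univ = 1 := measure_univ
  rw [gauss_shift s, withDensity_apply _ MeasurableSet.univ, Measure.restrict_univ] at h
  exact h

theorem gauss_tail : gaussianReal 0 1 {x : ℝ | 20 < |x|} ≤ ENNReal.ofReal (1 / 128480) := by
  have hm : Measurable (fun x : ℝ => ENNReal.ofReal (Real.exp (1 * x - 1 ^ 2 / 2)) +
      ENNReal.ofReal (Real.exp (-1 * x - (-1) ^ 2 / 2))) := by fun_prop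
  have h1 := mul_meas_ge_le_lintegral (μ := gaussianReal 0 1) hm (ENNReal.ofReal (Real.exp (39 / 2)))
  rw [lintegral_add_left (by fun_prop), lint_exp, lint_exp] at h1
  have h2 : {x : ℝ | 20 < |x|} ⊆ {x : ℝ | ENNReal.ofReal (Real.exp (39 / 2)) ≤
      ENNReal.ofReal (Real.exp (1 * x - 1 ^ 2 / 2)) +
      ENNReal.ofReal (Real.exp (-1 * x - (-1) ^ 2 / 2))} := by
    intro x hx
    rw [mem_ofPred_eq] at hx ⊢
    rcases lt_abs.mp hx with h | h
    · refine le_trans ?_ le_self_add
      apply ENNReal.ofReal_le_ofReal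
      apply Real.exp_le_exp.mpr
      linarith
    · refine le_trans ?_ le_add_self
      apply ENNReal.ofReal_le_ofReal
      apply Real.exp_le_exp.mpr
      linarith
  have h3 : ENNReal.ofReal (Real.exp (39 / 2)) * gaussianReal 0 1 {x : ℝ | 20 < |x|} ≤ 1 + 1 :=
    (mul_le_mul_right (measure_mono h2) _).trans h1
  obtain ⟨y, hy0, hy⟩ : ∃ y : ℝ, 0 ≤ y ∧ gaussianReal 0 1 {x : ℝ | 20 < |x|} = ENNReal.ofReal y :=
    ⟨_, ENNReal.toReal_nonneg, (ENNReal.ofReal_toReal (measure_ne_top _ _)).symm⟩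
  rw [hy] at h3 ⊢
  have h4 : (1 : ℝ≥0∞) + 1 = ENNReal.ofReal 2 := by norm_num
  rw [h4, ← ENNReal.ofReal_mul (Real.exp_pos _).le, ENNReal.ofReal_le_ofReal_iff (by norm_num)] at h3
  apply ENNReal.ofReal_le_ofReal
  have h5 := exp_lower
  rw [le_div_iff₀ (by norm_num)]
  nlinarith

theorem gauss_body : ENNReal.ofReal (1 - 1 / 128480) ≤ gaussianReal 0 1 {x : ℝ | |x| ≤ 20} := by
  have hm : MeasurableSet {x : ℝ | 20 < |x|} := measurableSet_lt measurable_const (by fun_prop)
  have h1 := prob_compl_eq_one_sub (μ := gaussianReal 0 1) hm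
  have h2 : {x : ℝ | 20 < |x|}ᶜ = {x : ℝ | |x| ≤ 20} := by
    ext x; simp
  rw [h2] at h1
  rw [h1, ENNReal.ofReal_sub _ (by norm_num), ENNReal.ofReal_one]
  exact tsub_le_tsub_left gauss_tail 1

theorem exists_theta {n m : ℕ} (hm : 1 ≤ m) (hn : 4 * m ≤ n) {E' : ℝ} (hE'0 : 0 < E')
    (hE' : 2 / Real.pi * (Real.log n - 1 / 40 * Real.log m + 12) < E' * (1 - 1 / 128480)) :
    ∃ θ : ℝ, |θ| ≤ 20 ∧
      ∫⁻ a, T n (fun j => a j + θ * sv n m j) ∂mu ≤ ENNReal.ofReal E' := by
  by_contra hcon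
  push Not at hcon
  have h1 := expect_T hm hn
  have hmeas : Measurable (fun p : ℝ × (ℕ → ℝ) => T n (fun j => p.2 j + p.1 * sv n m j)) := by
    apply (measurable_T n).comp
    fun_prop
  rw [lintegral_prod _ hmeas.aemeasurable] at h1
  have h2 : ENNReal.ofReal E' * ENNReal.ofReal (1 - 1 / 128480) ≤
      ∫⁻ θ, ∫⁻ a, T n (fun j => a j + θ * sv n m j) ∂mu ∂(gaussianReal 0 1) := by
    calc ENNReal.ofReal E' * ENNReal.ofReal (1 - 1 / 128480) ≤
          ENNReal.ofReal E' * gaussianReal 0 1 {x : ℝ | |x| ≤ 20} := mul_le_mul_right gauss_body _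
      _ = ∫⁻ _x in {x : ℝ | |x| ≤ 20}, ENNReal.ofReal E' ∂(gaussianReal 0 1) := by
          rw [setLIntegral_const]
      _ ≤ ∫⁻ θ in {x : ℝ | |x| ≤ 20}, ∫⁻ a, T n (fun j => a j + θ * sv n m j) ∂mu
            ∂(gaussianReal 0 1) := by
          apply setLIntegral_mono' (measurableSet_le (by fun_prop) measurable_const)
          intro θ hθ
          exact (hcon θ hθ).le
      _ ≤ _ := setLIntegral_le_lintegral _ _
  have h3 := h2.trans h1
  have hE0 : 0 < 2 / Real.pi * (Real.log n - 1 / 40 * Real.log m + 12) := by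
    have hm' : (1 : ℝ) ≤ m := by exact_mod_cast hm
    have hn' : (4 : ℝ) * m ≤ n := by exact_mod_cast hn
    have e1 : Real.log m ≤ Real.log n := Real.log_le_log (by linarith) (by linarith)
    have e2 : 0 ≤ Real.log m := Real.log_nonneg hm'
    have hpi := Real.pi_pos
    apply mul_pos (by positivity)
    linarith
  rw [← ENNReal.ofReal_mul hE'0.le, ENNReal.ofReal_le_ofReal_iff hE0.le] at h3
  linarith

/-! ### Main estimate -/

theorem sv_support {n m j : ℕ} (h : sv n m j ≠ 0) : n - 2 * m ≤ j ∧ j ≤ n := by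
  unfold sv at h
  obtain ⟨i, hi, hne⟩ := Finset.exists_ne_zero_of_sum_ne_zero h
  have him := Finset.mem_range.mp hi
  by_cases hj : j = n - 2 * i
  · omega
  · rw [if_neg hj] at hne
    exact absurd rfl hne

theorem sv_at {n m i : ℕ} (hn : 2 * m ≤ n) (hi : i ≤ m) : sv n m (n - 2 * i) = c i := by
  unfold sv
  rw [Finset.sum_eq_single i]
  · simp
  · intro b hb hbi
    have := Finset.mem_range.mp hb
    rw [if_neg]
    omega
  · intro h
    exact absurd (Finset.mem_range.mpr (by omega)) h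

theorem sum_sv_sq {n m : ℕ} (hn : 2 * m ≤ n) (J : Finset ℕ) :
    ∑ j ∈ J, sv n m j ^ 2 ≤ 1 + Real.log (m + 1) := by
  have h1 : ∑ j ∈ J, sv n m j ^ 2 ≤ ∑ i ∈ Finset.range (m + 1), c i ^ 2 := by
    calc ∑ j ∈ J, sv n m j ^ 2 = ∑ j ∈ J, ∑ i ∈ Finset.range (m + 1),
          (if j = n - 2 * i then c i * sv n m j else 0) := by
          apply Finset.sum_congr rfl
          intro j _
          rw [sq]
          nth_rewrite 1 [sv]
          rw [Finset.sum_mul]
          apply Finset.sum_congr rfl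
          intro i _
          split_ifs <;> simp
      _ = ∑ i ∈ Finset.range (m + 1), ∑ j ∈ J, (if j = n - 2 * i then c i * sv n m j else 0) :=
          Finset.sum_comm
      _ ≤ ∑ i ∈ Finset.range (m + 1), c i ^ 2 := by
          apply Finset.sum_le_sum
          intro i hi
          have him : i ≤ m := by have := Finset.mem_range.mp hi; omega
          rw [Finset.sum_ite_eq']
          split_ifs
          · rw [sv_at hn him, sq]
          · positivity
  refine h1.trans ?_
  calc ∑ i ∈ Finset.range (m + 1), c i ^ 2 ≤ ∑ i ∈ Finset.range (m + 1), 1 / ((i : ℝ) + 1) :=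
        Finset.sum_le_sum (fun i _ => c_sq_le i)
    _ = ((harmonic (m + 1) : ℚ) : ℝ) := by
        unfold harmonic
        push_cast
        apply Finset.sum_congr rfl
        intro i _
        rw [one_div]
    _ ≤ 1 + Real.log ((m + 1 : ℕ) : ℝ) := harmonic_le_one_add_log (m + 1)
    _ = 1 + Real.log (m + 1) := by push_cast; rfl

/-- The threshold. -/
noncomputable def Kn (n : ℕ) : ℝ := 2 / Real.pi * ((1 - 1 / 128480) * Real.log n)

theorem block_prob {n m : ℕ} (hm : 1 ≤ m) (hn : 4 * m ≤ n) (hn2 : Real.log n ≤ 803 * Real.log m)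
    (hbig : 1541760 < Real.log n) :
    ∃ θ : ℝ, |θ| ≤ 20 ∧ ENNReal.ofReal (1 / 128480) ≤
      mu ((fun (a : ℕ → ℝ) j => a j + θ * sv n m j) ⁻¹' {a | T n a < ENNReal.ofReal (Kn n)}) := by
  have hpi := Real.pi_pos
  have h2pi : 0 < 2 / Real.pi := by positivity
  obtain ⟨θ, hθ, hE⟩ := exists_theta (E' := 2 / Real.pi * ((1 - 1 / 64240) * Real.log n)) hm hn
    (by positivity) (by
      rw [mul_assoc]
      apply mul_lt_mul_of_pos_left _ h2pi
      nlinarith)
  refine ⟨θ, hθ, ?_⟩
  have hmT : Measurable (fun a : ℕ → ℝ => T n (fun j => a j + θ * sv n m j)) := by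
    apply (measurable_T n).comp
    fun_prop
  have hmk := mul_meas_ge_le_lintegral (μ := mu) hmT (ENNReal.ofReal (Kn n))
  have hKpos : 0 < Kn n := by unfold Kn; positivity
  have hset : (fun (a : ℕ → ℝ) j => a j + θ * sv n m j) ⁻¹' {a | T n a < ENNReal.ofReal (Kn n)} =
      {a | ENNReal.ofReal (Kn n) ≤ T n (fun j => a j + θ * sv n m j)}ᶜ := by
    ext a; simp
  have hms : MeasurableSet {a : ℕ → ℝ | ENNReal.ofReal (Kn n) ≤ T n (fun j => a j + θ * sv n m j)} :=
    measurableSet_le measurable_const hmT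
  rw [hset, prob_compl_eq_one_sub hms]
  obtain ⟨y, hy0, hy⟩ : ∃ y : ℝ, 0 ≤ y ∧
      mu {a : ℕ → ℝ | ENNReal.ofReal (Kn n) ≤ T n (fun j => a j + θ * sv n m j)} =
        ENNReal.ofReal y :=
    ⟨_, ENNReal.toReal_nonneg, (ENNReal.ofReal_toReal (measure_ne_top _ _)).symm⟩
  have h1 := hmk.trans hE
  rw [hy] at h1 ⊢
  rw [← ENNReal.ofReal_mul hKpos.le, ENNReal.ofReal_le_ofReal_iff (by positivity)] at h1
  rw [← ENNReal.ofReal_one, ← ENNReal.ofReal_sub _ hy0]
  apply ENNReal.ofReal_le_ofReal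
  unfold Kn at h1
  have h3 : (1 - 1 / 128480) * Real.log n * y ≤ (1 - 1 / 64240) * Real.log n := by
    have : 2 / Real.pi * ((1 - 1 / 128480) * Real.log n * y) ≤
        2 / Real.pi * ((1 - 1 / 64240) * Real.log n) := by linarith
    exact le_of_mul_le_mul_left this h2pi
  have h4 : (1 - 1 / 128480) * y ≤ (1 - 1 / 64240 : ℝ) := by
    have hl : 0 < Real.log n := by linarith
    by_contra hcon
    push Not at hcon
    nlinarith
  linarith

theorem main_prob (m : ℕ) (hm : 4 ≤ m) (hbig : 1541760 < Real.log m) :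
    ENNReal.ofReal ((1 / 128480) ^ 2 / 2) ≤
      mu {a | ∃ n, m ≤ n ∧ T n a < ENNReal.ofReal (Kn n)} := by
  classical
  have hm' : (4 : ℝ) ≤ m := by exact_mod_cast hm
  let N := m ^ 802
  let B := m ^ 800
  let nb : ℕ → ℕ := fun b => N + (b + 1) * (2 * m + 1)
  have hNm : m ^ 2 ≤ N := Nat.pow_le_pow_right (by omega) (by norm_num)
  have h4m : 4 * m ≤ N := by nlinarith
  have hnb4 : ∀ b, 4 * m ≤ nb b := fun b => h4m.trans (Nat.le_add_right _ _)
  have hnbN : ∀ b, N ≤ nb b := fun b => Nat.le_add_right _ _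
  have hnb2 : ∀ b ∈ Finset.range B, nb b ≤ 2 * N := by
    intro b hb
    have hb' : b + 1 ≤ B := Finset.mem_range.mp hb
    have h1 : (b + 1) * (2 * m + 1) ≤ B * m ^ 2 := Nat.mul_le_mul hb' (by nlinarith)
    have h2 : B * m ^ 2 = N := by
      show m ^ 800 * m ^ 2 = m ^ 802
      rw [← pow_add]
    show N + (b + 1) * (2 * m + 1) ≤ 2 * N
    omega
  have hlogm : 0 < Real.log m := by linarith
  have hlog : ∀ b ∈ Finset.range B, Real.log (nb b) ≤ 803 * Real.log m := by
    intro b hb
    have h1 : (nb b : ℝ) ≤ (m : ℝ) ^ 803 := by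
      have h2 : nb b ≤ m ^ 803 := by
        calc nb b ≤ 2 * N := hnb2 b hb
          _ ≤ m * N := Nat.mul_le_mul_right _ (by omega)
          _ = m ^ 803 := by
              show m * m ^ 802 = m ^ 803
              rw [← pow_succ']
      exact_mod_cast h2
    have h0 : (0 : ℝ) < nb b := by
      have : 0 < nb b := by have := hnb4 b; omega
      exact_mod_cast this
    calc Real.log (nb b) ≤ Real.log ((m : ℝ) ^ 803) := Real.log_le_log h0 h1
      _ = 803 * Real.log m := by rw [Real.log_pow]; norm_num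
  have hmnb : ∀ b, m ≤ nb b := fun b => by have := hnb4 b; omega
  have hlogbig : ∀ b, 1541760 < Real.log (nb b) := by
    intro b
    refine hbig.trans_le (Real.log_le_log (by linarith) ?_)
    exact_mod_cast hmnb b
  have hex : ∀ b ∈ Finset.range B, ∃ θ : ℝ, |θ| ≤ 20 ∧ ENNReal.ofReal (1 / 128480) ≤
      mu ((fun (a : ℕ → ℝ) j => a j + θ * sv (nb b) m j) ⁻¹'
        {a | T (nb b) a < ENNReal.ofReal (Kn (nb b))}) :=
    fun b hb => block_prob (by omega) (hnb4 b) (hlog b hb) (hlogbig b)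
  choose! θ hθ using hex
  let J := Finset.range (2 * N + 1)
  let s : ℕ → ℕ → ℝ := fun b j => if b < B then θ b * sv (nb b) m j else 0
  have hsJ : ∀ b j, j ∉ J → s b j = 0 := by
    intro b j hj
    show (if b < B then θ b * sv (nb b) m j else 0) = 0
    split_ifs with hb
    · by_contra hne
      have h1 : sv (nb b) m j ≠ 0 := fun h => hne (by rw [h, mul_zero])
      have h2 := (sv_support h1).2
      have h3 := hnb2 b (Finset.mem_range.mpr hb)
      apply hj
      exact Finset.mem_range.mpr (by omega)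
    · rfl
  have hoffz : ∀ b b' j, b < b' → s b j * s b' j = 0 := by
    intro b b' j hbb
    by_contra hne
    have h1 : s b j ≠ 0 := left_ne_zero_of_mul hne
    have h2 : s b' j ≠ 0 := right_ne_zero_of_mul hne
    have h3 : sv (nb b) m j ≠ 0 := by
      intro h
      apply h1
      show (if b < B then θ b * sv (nb b) m j else 0) = 0
      rw [h]; simp
    have h4 : sv (nb b') m j ≠ 0 := by
      intro h
      apply h2
      show (if b' < B then θ b' * sv (nb b') m j else 0) = 0
      rw [h]; simp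
    have h5 := (sv_support h3).2
    have h6 := (sv_support h4).1
    have h7 : nb b + (2 * m + 1) ≤ nb b' := by
      show N + (b + 1) * (2 * m + 1) + (2 * m + 1) ≤ N + (b' + 1) * (2 * m + 1)
      have : (b + 2) * (2 * m + 1) ≤ (b' + 1) * (2 * m + 1) := Nat.mul_le_mul_right _ (by omega)
      nlinarith
    omega
  have hB1 : 1 ≤ B := Nat.one_le_pow _ _ (by omega)
  have hsm := second_moment mu B hB1 (fun b a j => a j + s b j) (fun b => lr J (s b))
    (fun b => {a | T (nb b) a < ENNReal.ofReal (Kn (nb b))})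
    (fun b => by fun_prop) (fun b => measurable_lr J (s b))
    (fun b => measurableSet_lt (measurable_T _) measurable_const)
    (fun b => mu_shift J (s b) (hsJ b)) (p := 1 / 128480) (Q := B) (by norm_num)
    (by positivity) (le_refl _)
    (by
      intro b hb
      have h1 := (hθ b hb).2
      have h2 : (fun (a : ℕ → ℝ) j => a j + s b j) = fun a j => a j + θ b * sv (nb b) m j := by
        funext a j
        show a j + (if b < B then θ b * sv (nb b) m j else 0) = _
        rw [if_pos (Finset.mem_range.mp hb)]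
      rw [h2]
      exact h1)
    (by
      intro b _ b' _ hne
      rw [lintegral_lr_mul J _ _ (hsJ b) (hsJ b')]
      have : ∑ j ∈ J, s b j * s b' j = 0 := by
        apply Finset.sum_eq_zero
        intro j _
        rcases lt_or_gt_of_ne hne with h | h
        · exact hoffz b b' j h
        · rw [mul_comm]; exact hoffz b' b j h
      rw [this]; simp)
    (by
      intro b hb
      rw [lintegral_lr_mul J _ _ (hsJ b) (hsJ b)]
      apply ENNReal.ofReal_le_ofReal
      have h1 : ∑ j ∈ J, s b j * s b j ≤ 400 * (1 + Real.log (m + 1)) := by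
        have h2 : ∑ j ∈ J, s b j * s b j = θ b ^ 2 * ∑ j ∈ J, sv (nb b) m j ^ 2 := by
          rw [Finset.mul_sum]
          apply Finset.sum_congr rfl
          intro j _
          show (if b < B then θ b * sv (nb b) m j else 0) *
            (if b < B then θ b * sv (nb b) m j else 0) = _
          rw [if_pos (Finset.mem_range.mp hb)]
          ring
        rw [h2]
        have h3 := sum_sv_sq (n := nb b) (m := m) (by have := hnb4 b; omega) J
        have h4 : θ b ^ 2 ≤ 400 := by
          have := (hθ b hb).1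
          rw [← sq_abs]
          nlinarith [abs_nonneg (θ b)]
        have h5 : 0 ≤ ∑ j ∈ J, sv (nb b) m j ^ 2 := Finset.sum_nonneg (fun _ _ => sq_nonneg _)
        calc θ b ^ 2 * ∑ j ∈ J, sv (nb b) m j ^ 2 ≤ 400 * ∑ j ∈ J, sv (nb b) m j ^ 2 :=
              mul_le_mul_of_nonneg_right h4 h5
          _ ≤ _ := mul_le_mul_of_nonneg_left h3 (by norm_num)
      have h6 : 1 + Real.log (m + 1) ≤ 2 * Real.log m := by
        have e1 : 1 + Real.log ((m : ℝ) + 1) = Real.log (Real.exp 1 * (m + 1)) := by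
          rw [Real.log_mul (Real.exp_pos _).ne' (by linarith), Real.log_exp]
        have e2 : 2 * Real.log (m : ℝ) = Real.log ((m : ℝ) ^ 2) := by
          rw [Real.log_pow]; norm_num
        rw [e1, e2]
        apply Real.log_le_log (by positivity)
        have := Real.exp_one_lt_d9
        nlinarith
      calc Real.exp (∑ j ∈ J, s b j * s b j) ≤ Real.exp (800 * Real.log m) := by
            apply Real.exp_le_exp.mpr
            linarith
        _ = (m : ℝ) ^ 800 := by
            rw [← Real.exp_log (show (0 : ℝ) < (m : ℝ) ^ 800 by positivity), Real.log_pow]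
            norm_num
        _ = (B : ℝ) := by show _ = ((m ^ 800 : ℕ) : ℝ); push_cast; rfl)
  refine hsm.trans (measure_mono ?_)
  intro a ha
  simp only [mem_iUnion] at ha
  obtain ⟨b, hb, hab⟩ := ha
  exact ⟨nb b, hmnb b, hab⟩

/-- Almost sure convergence of the normalised number of real roots fails. -/
theorem not_ae_tendsto : ¬ ∀ᵐ a ∂mu, Tendsto (fun n : ℕ => ((kp n a).roots.card : ℝ) / Real.log n)
    atTop (𝓝 (2 / Real.pi)) := by
  intro H
  have hpi := Real.pi_pos
  have h2pi : 0 < 2 / Real.pi := by positivity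
  have hroots : ∀ᵐ a ∂mu, ∀ n : ℕ, 1 ≤ n → ((kp n a).roots.card : ℝ≥0∞) ≤ T n a := by
    rw [ae_all_iff]
    intro n
    by_cases hn : 1 ≤ n
    · filter_upwards [ae_roots n hn] with a ha _
      exact ha
    · exact Filter.Eventually.of_forall (fun a h => absurd h hn)
  let A : ℕ → Set (ℕ → ℝ) := fun M => {a | ∃ n, M ≤ n ∧ T n a < ENNReal.ofReal (Kn n)}
  have hAm : ∀ M, MeasurableSet (A M) := by
    intro M
    have : A M = ⋃ n : ℕ, ⋃ _ : M ≤ n, {a | T n a < ENNReal.ofReal (Kn n)} := by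
      ext a
      simp [A]
    rw [this]
    apply MeasurableSet.iUnion
    intro n
    apply MeasurableSet.iUnion
    intro _
    exact measurableSet_lt (measurable_T n) measurable_const
  have hanti : Antitone A := by
    intro M M' h a ha
    obtain ⟨n, hn, hlt⟩ := ha
    exact ⟨n, h.trans hn, hlt⟩
  have hnull : mu (⋂ M, A M) = 0 := by
    rw [measure_eq_zero_iff_ae_notMem]
    filter_upwards [H, hroots] with a ha hr hmem
    have h1 : ∀ᶠ n : ℕ in atTop, 2 / Real.pi * (1 - 1 / 128480) <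
        ((kp n a).roots.card : ℝ) / Real.log n :=
      (tendsto_order.mp ha).1 _ (by
        have : 0 < 2 / Real.pi * (1 / 128480) := by positivity
        linarith)
    obtain ⟨M, hM⟩ := Filter.eventually_atTop.mp (h1.and (Filter.eventually_ge_atTop 3))
    rw [mem_iInter] at hmem
    obtain ⟨n, hn, hlt⟩ := hmem M
    obtain ⟨h2, h3⟩ := hM n hn
    have h3' : (3 : ℝ) ≤ n := by exact_mod_cast h3
    have hlog : 0 < Real.log n := Real.log_pos (by linarith)
    rw [lt_div_iff₀ hlog] at h2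
    have h4 : ENNReal.ofReal (Kn n) ≤ ((kp n a).roots.card : ℝ≥0∞) := by
      rw [← ENNReal.ofReal_natCast]
      apply ENNReal.ofReal_le_ofReal
      unfold Kn
      linarith
    exact absurd (h4.trans (hr n (by omega))) (not_le.mpr hlt)
  have htend := tendsto_measure_iInter_atTop (μ := mu) (fun M => (hAm M).nullMeasurableSet) hanti
    ⟨0, measure_ne_top _ _⟩
  rw [hnull] at htend
  have hpos : (0 : ℝ≥0∞) < ENNReal.ofReal ((1 / 128480) ^ 2 / 2) := by
    rw [ENNReal.ofReal_pos]; norm_num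
  have hlogt : Tendsto (fun m : ℕ => Real.log m) atTop atTop :=
    Real.tendsto_log_atTop.comp tendsto_natCast_atTop_atTop
  obtain ⟨m, hm1, hm2, hm3⟩ := ((tendsto_order.mp htend).2 _ hpos |>.and
    ((hlogt.eventually_gt_atTop 1541760).and (Filter.eventually_ge_atTop 4))).exists
  exact absurd (main_prob m hm3 hm2) (not_le.mpr hm1)

end Pool.Agent.Helper553.Kac
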