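import Pool.Agent.Helper553.Kac.Angle

set_option autoImplicit false
open MeasureTheory ProbabilityTheory Filter Topology Set InnerProductGeometry
open scoped ENNReal NNReal RealInnerProductSpace

namespace Pool.Agent.Helper553.Kac

/-- The Kac kernel. -/
noncomputable def K (n : ℕ) (x y : ℝ) : ℝ := ∑ j ∈ Finset.range (n + 1), (x * y) ^ j

/-- The moment vector with an extra coordinate. -/
noncomputable def vec (n : ℕ) (e t : ℝ) : EuclideanSpace ℝ (Fin (n + 2)) :=
  WithLp.toLp 2 (Fin.cons e (fun j : Fin (n + 1) => t ^ (j : ℕ)))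

theorem inner_vec (n : ℕ) (e e' x y : ℝ) : ⟪vec n e x, vec n e' y⟫ = e * e' + K n x y := by
  unfold vec K
  rw [PiLp.inner_apply, Fin.sum_univ_succ]
  simp only [Fin.cons_zero, Fin.cons_succ, RCLike.inner_apply, conj_trivial]
  rw [← Fin.sum_univ_eq_sum_range (fun j => (x * y) ^ j)]
  congr 1
  · ring
  · apply Finset.sum_congr rfl
    intro j _
    rw [mul_pow]; ring

theorem norm_vec_sq (n : ℕ) (e x : ℝ) : ‖vec n e x‖ ^ 2 = e ^ 2 + K n x x := by
  rw [← real_inner_self_eq_norm_sq, inner_vec]; ring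

theorem one_le_K (n : ℕ) (x : ℝ) : 1 ≤ K n x x := by
  unfold K
  rw [Finset.sum_range_succ']
  have : 0 ≤ ∑ k ∈ Finset.range n, (x * x) ^ (k + 1) :=
    Finset.sum_nonneg (fun i _ => pow_nonneg (mul_self_nonneg x) _)
  simp only [pow_zero]
  linarith

theorem norm_vec_zero (n : ℕ) (x : ℝ) : ‖vec n 0 x‖ = Real.sqrt (K n x x) := by
  have h := norm_vec_sq n 0 x
  rw [zero_pow two_ne_zero, zero_add] at h
  rw [← h, Real.sqrt_sq (norm_nonneg _)]

theorem vec_ne_zero (n : ℕ) (e x : ℝ) : vec n e x ≠ 0 := by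
  intro h
  have h1 := norm_vec_sq n e x
  rw [h, norm_zero] at h1
  have := one_le_K n x
  nlinarith [sq_nonneg e]

/-- The unit vector of the extra coordinate. -/
noncomputable def zeta (n : ℕ) : EuclideanSpace ℝ (Fin (n + 2)) :=
  WithLp.toLp 2 (Fin.cons 1 (fun _ : Fin (n + 1) => 0))

theorem norm_zeta (n : ℕ) : ‖zeta n‖ = 1 := by
  have h : ‖zeta n‖ ^ 2 = 1 := by
    rw [← real_inner_self_eq_norm_sq, zeta, PiLp.inner_apply, Fin.sum_univ_succ]
    simp
  exact (pow_eq_one_iff_of_nonneg (norm_nonneg _) two_ne_zero).mp h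

theorem inner_zeta (n : ℕ) (x : ℝ) : ⟪vec n 0 x, zeta n⟫ = 0 := by
  rw [zeta, vec, PiLp.inner_apply, Fin.sum_univ_succ]
  simp

theorem vec_eq (n : ℕ) (e x : ℝ) : vec n e x = vec n 0 x + e • zeta n := by
  unfold vec zeta
  ext i
  refine Fin.cases ?_ (fun j => ?_) i <;> simp

theorem angle_vec_add (n : ℕ) (e e' x y : ℝ) :
    angle (vec n e x) (vec n e' y) ≤
      |Real.arctan (e / Real.sqrt (K n x x)) - Real.arctan (e' / Real.sqrt (K n y y))| +
        1 / Real.sqrt (1 + (e' / Real.sqrt (K n y y)) ^ 2) * angle (vec n 0 x) (vec n 0 y) := by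
  rw [vec_eq n e x, vec_eq n e' y, ← norm_vec_zero, ← norm_vec_zero]
  exact angle_add (vec_ne_zero n 0 x) (vec_ne_zero n 0 y) (norm_zeta n) (inner_zeta n x)
    (inner_zeta n y) e e'

/-- `artanh`. -/
noncomputable def L (x : ℝ) : ℝ := 1 / 2 * Real.log ((1 + x) / (1 - x))

theorem L_zero : L 0 = 0 := by simp [L]

theorem L_mono {x y : ℝ} (hx : 0 ≤ x) (hxy : x ≤ y) (hy : y < 1) : L x ≤ L y := by
  unfold L
  apply mul_le_mul_of_nonneg_left _ (by norm_num)
  apply Real.log_le_log (div_pos (by linarith) (by linarith))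
  rw [div_le_div_iff₀ (by linarith) (by linarith)]
  nlinarith

theorem cosh_L_sub {x y : ℝ} (hx : 0 ≤ x) (hx1 : x < 1) (hy : 0 ≤ y) (hy1 : y < 1) :
    Real.cosh (L y - L x) = (1 - x * y) / Real.sqrt ((1 - x ^ 2) * (1 - y ^ 2)) := by
  have hax : 0 < (1 + x) / (1 - x) := div_pos (by linarith) (by linarith)
  have hay : 0 < (1 + y) / (1 - y) := div_pos (by linarith) (by linarith)
  have h1 : Real.exp (L y - L x) = Real.sqrt (((1 + y) * (1 - x)) / ((1 - y) * (1 + x))) := by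
    unfold L
    rw [← mul_sub, ← Real.log_div hay.ne' hax.ne', Real.sqrt_eq_rpow,
      Real.rpow_def_of_pos (div_pos (mul_pos (by linarith) (by linarith))
        (mul_pos (by linarith) (by linarith)))]
    congr 1
    rw [mul_comm]
    congr 2
    field_simp
  have hp1 : 0 < (1 + y) * (1 - x) := mul_pos (by linarith) (by linarith)
  have hp2 : 0 < (1 - y) * (1 + x) := mul_pos (by linarith) (by linarith)
  rw [Real.cosh_eq, Real.exp_neg, h1, Real.sqrt_div hp1.le]
  have e1 : (1 - x ^ 2) * (1 - y ^ 2) = ((1 + y) * (1 - x)) * ((1 - y) * (1 + x)) := by ring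
  rw [e1, Real.sqrt_mul hp1.le]
  have hs1 : 0 < Real.sqrt ((1 + y) * (1 - x)) := Real.sqrt_pos.mpr hp1
  have hs2 : 0 < Real.sqrt ((1 - y) * (1 + x)) := Real.sqrt_pos.mpr hp2
  have hq1 : Real.sqrt ((1 + y) * (1 - x)) ^ 2 = (1 + y) * (1 - x) := Real.sq_sqrt hp1.le
  have hq2 : Real.sqrt ((1 - y) * (1 + x)) ^ 2 = (1 - y) * (1 + x) := Real.sq_sqrt hp2.le
  field_simp
  rw [hq1, hq2]
  ring

theorem K_geom (n : ℕ) {z x y : ℝ} (hz : z = x * y) (h : z ≠ 1) :
    K n x y = (1 - z ^ (n + 1)) / (1 - z) := by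
  unfold K
  rw [← hz, geom_sum_eq h]
  have : 1 - z ≠ 0 := fun h0 => h (by linarith)
  have h2 : z - 1 ≠ 0 := fun h0 => h (by linarith)
  field_simp
  ring

theorem angle_vec_L (n : ℕ) {x y : ℝ} (hx : 0 ≤ x) (hxy : x ≤ y) (hy : y < 1) :
    angle (vec n 0 x) (vec n 0 y) ≤ L y - L x := by
  have hx1 : x < 1 := by linarith
  have hy0 : 0 ≤ y := by linarith
  have hxy1 : x * y < 1 := by nlinarith
  apply angle_le_of_inner (sub_nonneg.mpr (L_mono hx hxy hy)) (vec_ne_zero _ _ _) (vec_ne_zero _ _ _)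
  rw [norm_vec_zero, norm_vec_zero, inner_vec, cosh_L_sub hx hx1 hy0 hy]
  have hxx : 0 < 1 - x ^ 2 := by nlinarith
  have hyy : 0 < 1 - y ^ 2 := by nlinarith
  rw [K_geom n (z := x ^ 2) (by ring) (by linarith), K_geom n (z := y ^ 2) (by ring) (by linarith),
    K_geom n (z := x * y) rfl (by linarith)]
  have hpx : x ^ (n + 1) ≤ 1 := pow_le_one₀ hx hx1.le
  have hpy : y ^ (n + 1) ≤ 1 := pow_le_one₀ hy0 hy.le
  have hpx0 : 0 ≤ x ^ (n + 1) := pow_nonneg hx _
  have hpy0 : 0 ≤ y ^ (n + 1) := pow_nonneg hy0 _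
  have e1 : (x ^ 2) ^ (n + 1) = (x ^ (n + 1)) ^ 2 := by ring
  have e2 : (y ^ 2) ^ (n + 1) = (y ^ (n + 1)) ^ 2 := by ring
  rw [e1, e2, mul_pow]
  generalize x ^ (n + 1) = p at *
  generalize y ^ (n + 1) = q at *
  rw [← Real.sqrt_mul (div_nonneg (by nlinarith) hxx.le)]
  have h3 : (0 * 0 + (1 - p * q) / (1 - x * y)) * ((1 - x * y) / Real.sqrt ((1 - x ^ 2) * (1 - y ^ 2)))
      = (1 - p * q) / Real.sqrt ((1 - x ^ 2) * (1 - y ^ 2)) := by
    have : 1 - x * y ≠ 0 := by linarith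
    field_simp
    ring
  rw [h3, le_div_iff₀ (Real.sqrt_pos.mpr (mul_pos hxx hyy)),
    ← Real.sqrt_mul (mul_nonneg (div_nonneg (by nlinarith) hxx.le) (div_nonneg (by nlinarith) hyy.le))]
  apply Real.sqrt_le_iff.mpr
  constructor
  · nlinarith
  · have : (1 - p ^ 2) / (1 - x ^ 2) * ((1 - q ^ 2) / (1 - y ^ 2)) * ((1 - x ^ 2) * (1 - y ^ 2)) =
        (1 - p ^ 2) * (1 - q ^ 2) := by field_simp
    rw [this]
    nlinarith [sq_nonneg (p - q)]

theorem angle_vec_log (n : ℕ) {x y : ℝ} (hx : 0 < x) (hxy : x ≤ y) :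
    angle (vec n 0 x) (vec n 0 y) ≤ n / 2 * (Real.log y - Real.log x) := by
  have hy : 0 < y := by linarith
  have hlog : Real.log x ≤ Real.log y := Real.log_le_log hx hxy
  apply angle_le_of_inner (mul_nonneg (by positivity) (sub_nonneg.mpr hlog)) (vec_ne_zero _ _ _)
    (vec_ne_zero _ _ _)
  rw [norm_vec_zero, norm_vec_zero, inner_vec]
  obtain ⟨s, hs⟩ : ∃ s : ℝ, s = Real.exp (-(n / 2 * (Real.log y - Real.log x))) := ⟨_, rfl⟩
  have hs0 : 0 < s := by rw [hs]; exact Real.exp_pos _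
  have hs2 : s ^ 2 = (x / y) ^ n := by
    rw [hs, ← Real.exp_nat_mul, ← Real.exp_log (div_pos hx hy), ← Real.exp_nat_mul,
      Real.log_div hx.ne' hy.ne']
    congr 1
    push_cast
    ring
  have hcosh : Real.cosh (n / 2 * (Real.log y - Real.log x)) = (1 + s ^ 2) / (2 * s) := by
    rw [Real.cosh_eq, ← hs]
    have : Real.exp (n / 2 * (Real.log y - Real.log x)) = s⁻¹ := by
      rw [hs, Real.exp_neg, inv_inv]
    rw [this]
    field_simp
  rw [hcosh, ← mul_div_assoc, le_div_iff₀ (by positivity)]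
  have key : K n x x + s ^ 2 * K n y y ≤ (1 + s ^ 2) * K n x y := by
    unfold K
    rw [Finset.mul_sum, Finset.mul_sum, ← Finset.sum_add_distrib]
    apply Finset.sum_le_sum
    intro j hj
    have hjn : j ≤ n := by
      have := Finset.mem_range.mp hj
      omega
    rw [mul_pow, mul_pow, mul_pow]
    have h1 : x ^ j ≤ y ^ j := pow_le_pow_left₀ hx.le hxy j
    have h2 : s ^ 2 * y ^ j ≤ x ^ j := by
      rw [hs2]
      calc (x / y) ^ n * y ^ j ≤ (x / y) ^ j * y ^ j := by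
            apply mul_le_mul_of_nonneg_right _ (by positivity)
            apply pow_le_pow_of_le_one (by positivity) _ hjn
            rw [div_le_one hy]; exact hxy
        _ = x ^ j := by rw [← mul_pow, div_mul_cancel₀ _ hy.ne']
    nlinarith [mul_nonneg (sub_nonneg.mpr h1) (sub_nonneg.mpr h2)]
  have hkx : Real.sqrt (K n x x) ^ 2 = K n x x := Real.sq_sqrt (by linarith [one_le_K n x])
  have hky : Real.sqrt (K n y y) ^ 2 = K n y y := Real.sq_sqrt (by linarith [one_le_K n y])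
  nlinarith [sq_nonneg (Real.sqrt (K n x x) - s * Real.sqrt (K n y y))]

/-- A bound for the total angular variation. -/
def AngBound {V : Type} [NormedAddCommGroup V] [InnerProductSpace ℝ V] (w : ℝ → V) (a b T : ℝ) :
    Prop :=
  ∃ Λ : ℝ → ℝ, (∀ x y, a ≤ x → x ≤ y → y ≤ b → angle (w x) (w y) ≤ Λ y - Λ x) ∧ Λ b - Λ a ≤ T

theorem AngBound.glue {V : Type} [NormedAddCommGroup V] [InnerProductSpace ℝ V] {w : ℝ → V}
    {a b c T₁ T₂ : ℝ} (h1 : AngBound w a b T₁) (h2 : AngBound w b c T₂) (hab : a ≤ b)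
    (hbc : b ≤ c) : AngBound w a c (T₁ + T₂) := by
  obtain ⟨Λ₁, h11, h12⟩ := h1
  obtain ⟨Λ₂, h21, h22⟩ := h2
  refine ⟨fun t => if t ≤ b then Λ₁ t else Λ₂ t - Λ₂ b + Λ₁ b, ?_, ?_⟩
  · intro x y hax hxy hyc
    by_cases hyb : y ≤ b
    · have hxb : x ≤ b := hxy.trans hyb
      simp only [hyb, hxb, if_true]
      exact h11 x y hax hxy hyb
    · push Not at hyb
      by_cases hxb : x ≤ b
      · simp only [not_le.mpr hyb, hxb, if_true, if_false]
        have e1 := h11 x b hax hxb (le_refl _)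
        have e2 := h21 b y (le_refl _) hyb.le hyc
        have e3 := angle_le_angle_add_angle (w x) (w b) (w y)
        linarith
      · push Not at hxb
        simp only [not_le.mpr hyb, not_le.mpr hxb, if_false]
        have e2 := h21 x y hxb.le hxy hyc
        linarith
  · simp only [hab, if_true]
    by_cases hcb : c ≤ b
    · have : c = b := le_antisymm hcb hbc
      subst this
      simp only [le_refl, if_true]
      have := h21 c c (le_refl _) (le_refl _) (le_refl _)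
      linarith
    · simp only [hcb, if_false]
      linarith

theorem AngBound.mono {V : Type} [NormedAddCommGroup V] [InnerProductSpace ℝ V] {w : ℝ → V}
    {a b T₁ T₂ : ℝ} (h1 : AngBound w a b T₁) (h : T₁ ≤ T₂) : AngBound w a b T₂ := by
  obtain ⟨Λ₁, h11, h12⟩ := h1
  exact ⟨Λ₁, h11, h12.trans h⟩

theorem AngBound.reflect {V : Type} [NormedAddCommGroup V] [InnerProductSpace ℝ V] {w : ℝ → V}
    {b T : ℝ} (h1 : AngBound w 0 b T)
    (hw : ∀ x y, angle (w (-x)) (w (-y)) = angle (w x) (w y)) : AngBound w (-b) 0 T := by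
  obtain ⟨Λ, h11, h12⟩ := h1
  refine ⟨fun t => - Λ (-t), ?_, ?_⟩
  · intro x y hx hxy hy
    have := h11 (-y) (-x) (by linarith) (by linarith) (by linarith)
    rw [hw, angle_comm] at this
    linarith
  · simp only [neg_zero, neg_neg]
    linarith

/-- Abbreviation for the normalised drift. -/
noncomputable def hfun (n : ℕ) (e : ℝ → ℝ) (t : ℝ) : ℝ := e t / Real.sqrt (K n t t)

theorem arctan_diff_le {p q : ℝ} (hp : 0 ≤ p) (hq : 0 ≤ q) :
    |Real.arctan p - Real.arctan q| ≤ Real.pi / 2 := by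
  have a1 := Real.arctan_nonneg.mpr hp
  have a2 := Real.arctan_lt_pi_div_two p
  have a3 := Real.arctan_nonneg.mpr hq
  have a4 := Real.arctan_lt_pi_div_two q
  rw [abs_le]
  constructor <;> linarith

/-- Angular bound on an interval where the normalised drift is monotone and at least `h₀`. -/
theorem angBound_of (n : ℕ) (e : ℝ → ℝ) {a b κ : ℝ} (Λ : ℝ → ℝ)
    (hΛ : ∀ x y, a ≤ x → x ≤ y → y ≤ b → angle (vec n 0 x) (vec n 0 y) ≤ Λ y - Λ x)
    (hab : a ≤ b) (hpos : ∀ t ∈ Icc a b, 0 ≤ hfun n e t)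
    (hmono : MonotoneOn (hfun n e) (Icc a b) ∨ AntitoneOn (hfun n e) (Icc a b))
    (hκ : ∀ t ∈ Icc a b, 1 / Real.sqrt (1 + hfun n e t ^ 2) ≤ κ) :
    AngBound (fun t => vec n (e t) t) a b (κ * (Λ b - Λ a) + Real.pi / 2) := by
  have hκ0 : 0 ≤ κ := le_trans (by positivity) (hκ a ⟨le_refl _, hab⟩)
  have hb := arctan_diff_le (hpos b ⟨hab, le_refl _⟩) (hpos a ⟨le_refl _, hab⟩)
  have base : ∀ x y, a ≤ x → x ≤ y → y ≤ b → angle (vec n (e x) x) (vec n (e y) y) ≤
      |Real.arctan (hfun n e x) - Real.arctan (hfun n e y)| + κ * (Λ y - Λ x) := by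
    intro x y hx hxy hy
    have h1 := angle_vec_add n (e x) (e y) x y
    refine h1.trans ?_
    apply add_le_add (le_refl _)
    calc _ ≤ κ * angle (vec n 0 x) (vec n 0 y) :=
          mul_le_mul_of_nonneg_right (hκ y ⟨by linarith, hy⟩) (angle_nonneg _ _)
      _ ≤ κ * (Λ y - Λ x) := mul_le_mul_of_nonneg_left (hΛ x y hx hxy hy) hκ0
  rcases hmono with hm | hm
  · refine ⟨fun t => κ * Λ t + Real.arctan (hfun n e t), ?_, ?_⟩
    · intro x y hx hxy hy
      refine (base x y hx hxy hy).trans ?_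
      have h2 : Real.arctan (hfun n e x) ≤ Real.arctan (hfun n e y) :=
        Real.arctan_mono (hm ⟨hx, by linarith⟩ ⟨by linarith, hy⟩ hxy)
      rw [abs_of_nonpos (by linarith)]
      simp only
      linarith
    · rw [abs_le] at hb
      simp only
      linarith [hb.2]
  · refine ⟨fun t => κ * Λ t - Real.arctan (hfun n e t), ?_, ?_⟩
    · intro x y hx hxy hy
      refine (base x y hx hxy hy).trans ?_
      have h2 : Real.arctan (hfun n e y) ≤ Real.arctan (hfun n e x) :=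
        Real.arctan_mono (hm ⟨hx, by linarith⟩ ⟨by linarith, hy⟩ hxy)
      rw [abs_of_nonneg (by linarith)]
      simp only
      linarith
    · rw [abs_le] at hb
      simp only
      linarith [hb.1]

end Pool.Agent.Helper553.Kac
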