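import Pool.Agent.Helper553.Kac.Expect

set_option autoImplicit false
open MeasureTheory ProbabilityTheory Filter Topology Set
open scoped ENNReal NNReal

namespace Pool.Agent.Helper553.Kac

theorem gauss_shift (s : ℝ) : gaussianReal s 1 =
    (gaussianReal 0 1).withDensity (fun x => ENNReal.ofReal (Real.exp (s * x - s ^ 2 / 2))) := by
  rw [gaussianReal_of_var_ne_zero 0 one_ne_zero, gaussianReal_of_var_ne_zero s one_ne_zero,
    ← withDensity_mul _ (measurable_gaussianPDF 0 1) (by fun_prop)]
  congr 1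
  funext x
  simp only [Pi.mul_apply, gaussianPDF]
  rw [← ENNReal.ofReal_mul (gaussianPDFReal_nonneg _ _ _)]
  congr 1
  simp only [gaussianPDFReal, NNReal.coe_one, mul_one, sub_zero]
  rw [mul_assoc, ← Real.exp_add]
  congr 2
  ring

/-- Likelihood ratio of a shift. -/
noncomputable def lr (J : Finset ℕ) (s : ℕ → ℝ) (a : ℕ → ℝ) : ℝ≥0∞ :=
  ENNReal.ofReal (Real.exp (∑ j ∈ J, (s j * a j - s j ^ 2 / 2)))

theorem measurable_lr (J : Finset ℕ) (s : ℕ → ℝ) : Measurable (lr J s) := by
  unfold lr
  fun_prop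

theorem mu_shift (J : Finset ℕ) (s : ℕ → ℝ) (hs : ∀ j, j ∉ J → s j = 0) :
    mu.map (fun a j => a j + s j) = mu.withDensity (lr J s) := by
  classical
  have h1 : mu.map (fun a j => a j + s j) = Measure.infinitePi (fun j => gaussianReal (s j) 1) := by
    have h := Measure.infinitePi_map_pi (fun _ : ℕ => gaussianReal 0 1)
      (f := fun (j : ℕ) (x : ℝ) => x + s j) (fun j => by fun_prop)
    rw [h]
    congr 1
    funext j
    rw [gaussianReal_map_add_const, zero_add]
  rw [h1]
  symm
  apply Measure.eq_infinitePi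
  intro I t ht
  let g : ℕ → ℝ → ℝ≥0∞ := fun i x => (if i ∈ I then (t i).indicator 1 x else 1) *
    ENNReal.ofReal (Real.exp (s i * x - s i ^ 2 / 2))
  have hg : ∀ i, Measurable (g i) := by
    intro i
    by_cases hi : i ∈ I
    · simp only [g, hi, if_true]
      exact (measurable_one.indicator (ht i)).mul (by fun_prop)
    · simp only [g, hi, if_false]
      fun_prop
  rw [withDensity_apply _ (MeasurableSet.pi I.countable_toSet (fun i _ => ht i)),
    ← lintegral_indicator (MeasurableSet.pi I.countable_toSet (fun i _ => ht i))]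
  have h2 : ∀ a : ℕ → ℝ, (Set.pi (I : Set ℕ) t).indicator (lr J s) a = ∏ i ∈ I ∪ J, g i (a i) := by
    intro a
    have e1 : ∏ i ∈ I ∪ J, g i (a i) = (∏ i ∈ I ∪ J, (if i ∈ I then (t i).indicator 1 (a i) else 1)) *
        ∏ i ∈ I ∪ J, ENNReal.ofReal (Real.exp (s i * a i - s i ^ 2 / 2)) := by
      rw [← Finset.prod_mul_distrib]
    have e2 : ∏ i ∈ I ∪ J, ENNReal.ofReal (Real.exp (s i * a i - s i ^ 2 / 2)) = lr J s a := by
      unfold lr
      rw [← ENNReal.ofReal_prod_of_nonneg (fun i _ => (Real.exp_pos _).le), ← Real.exp_sum]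
      congr 2
      symm
      apply Finset.sum_subset Finset.subset_union_right
      intro j _ hj
      rw [hs j hj]; simp
    have e3 : ∏ i ∈ I ∪ J, (if i ∈ I then (t i).indicator (1 : ℝ → ℝ≥0∞) (a i) else 1) =
        (Set.pi (I : Set ℕ) t).indicator 1 a := by
      rw [← Finset.prod_filter]
      have e4 : (I ∪ J).filter (fun i => i ∈ I) = I := by
        ext i
        simp only [Finset.mem_filter, Finset.mem_union]
        tauto
      rw [e4]
      by_cases ha : a ∈ Set.pi (I : Set ℕ) t
      · rw [indicator_of_mem ha]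
        simp only [Pi.one_apply]
        apply Finset.prod_eq_one
        intro i hi
        rw [indicator_of_mem (ha i hi)]
        rfl
      · rw [indicator_of_notMem ha]
        simp only [Set.mem_pi, not_forall] at ha
        obtain ⟨i, hi, hai⟩ := ha
        apply Finset.prod_eq_zero hi
        rw [indicator_of_notMem hai]
    rw [e1, e2, e3]
    by_cases ha : a ∈ Set.pi (I : Set ℕ) t
    · rw [indicator_of_mem ha, indicator_of_mem ha]; simp
    · rw [indicator_of_notMem ha, indicator_of_notMem ha]; simp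
  simp only [h2]
  have hind : iIndepFun (fun (i : ℕ) (a : ℕ → ℝ) => g i (a i)) mu :=
    iIndepFun_infinitePi (P := fun _ : ℕ => gaussianReal 0 1) (X := g) hg
  rw [lintegral_prod_eq_prod_lintegral_of_indepFun (I ∪ J) _ hind
    (fun i => (hg i).comp (measurable_pi_apply i))]
  have h3 : ∀ i, ∫⁻ a, g i (a i) ∂mu = ∫⁻ x, g i x ∂(gaussianReal 0 1) := by
    intro i
    rw [← Measure.infinitePi_map_eval (fun _ : ℕ => gaussianReal 0 1) i,
      lintegral_map (hg i) (measurable_pi_apply i)]
  simp only [h3]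
  have h4 : ∀ i ∈ I, ∫⁻ x, g i x ∂(gaussianReal 0 1) = gaussianReal (s i) 1 (t i) := by
    intro i hi
    rw [gauss_shift (s i), withDensity_apply _ (ht i), ← lintegral_indicator (ht i)]
    apply lintegral_congr
    intro x
    simp only [g, hi, if_true]
    by_cases hx : x ∈ t i
    · rw [indicator_of_mem hx, indicator_of_mem hx]; simp
    · rw [indicator_of_notMem hx, indicator_of_notMem hx]; simp
  have h5 : ∀ i, i ∉ I → ∫⁻ x, g i x ∂(gaussianReal 0 1) = 1 := by
    intro i hi
    have : ∫⁻ x, g i x ∂(gaussianReal 0 1) = gaussianReal (s i) 1 univ := by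
      rw [gauss_shift (s i), withDensity_apply _ MeasurableSet.univ, Measure.restrict_univ]
      apply lintegral_congr
      intro x
      simp only [g, hi, if_false, one_mul]
    rw [this, measure_univ]
  rw [← Finset.prod_subset (Finset.subset_union_left (s₁ := I) (s₂ := J))
    (fun i _ hi => h5 i hi)]
  exact Finset.prod_congr rfl h4

theorem lintegral_lr (J : Finset ℕ) (s : ℕ → ℝ) (hs : ∀ j, j ∉ J → s j = 0) :
    ∫⁻ a, lr J s a ∂mu = 1 := by
  have h : (mu.map (fun a j => a j + s j)) univ = (mu.withDensity (lr J s)) univ := by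
    rw [mu_shift J s hs]
  rw [withDensity_apply _ MeasurableSet.univ, Measure.restrict_univ,
    Measure.map_apply (by fun_prop) MeasurableSet.univ, preimage_univ, measure_univ] at h
  exact h.symm

theorem lintegral_lr_mul (J : Finset ℕ) (s s' : ℕ → ℝ) (hs : ∀ j, j ∉ J → s j = 0)
    (hs' : ∀ j, j ∉ J → s' j = 0) :
    ∫⁻ a, lr J s a * lr J s' a ∂mu = ENNReal.ofReal (Real.exp (∑ j ∈ J, s j * s' j)) := by
  have h0 := lintegral_withDensity_eq_lintegral_mul mu (measurable_lr J s) (measurable_lr J s')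
  simp only [Pi.mul_apply] at h0
  rw [← h0, ← mu_shift J s hs, lintegral_map (measurable_lr J s') (by fun_prop)]
  have h1 : ∀ a : ℕ → ℝ, lr J s' (fun j => a j + s j) =
      ENNReal.ofReal (Real.exp (∑ j ∈ J, s j * s' j)) * lr J s' a := by
    intro a
    unfold lr
    rw [← ENNReal.ofReal_mul (Real.exp_pos _).le, ← Real.exp_add, ← Finset.sum_add_distrib]
    congr 2
    apply Finset.sum_congr rfl
    intro j _
    ring
  simp only [h1]
  rw [lintegral_const_mul _ (measurable_lr J s'), lintegral_lr J s' hs', mul_one]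

theorem amgm (x : ℝ≥0∞) {t : ℝ} (ht : 0 < t) :
    x ≤ ENNReal.ofReal (t / 2) * x ^ 2 + ENNReal.ofReal (1 / (2 * t)) := by
  by_cases hx : x = ∞
  · subst hx
    have : ENNReal.ofReal (t / 2) * ∞ ^ 2 = ∞ := by
      rw [ENNReal.top_pow two_ne_zero, ENNReal.mul_top]
      simp only [ne_eq, ENNReal.ofReal_eq_zero, not_le]
      positivity
    rw [this, top_add]
  · obtain ⟨y, hy0, rfl⟩ : ∃ y : ℝ, 0 ≤ y ∧ x = ENNReal.ofReal y :=
      ⟨x.toReal, ENNReal.toReal_nonneg, (ENNReal.ofReal_toReal hx).symm⟩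
    rw [← ENNReal.ofReal_pow hy0, ← ENNReal.ofReal_mul (by positivity),
      ← ENNReal.ofReal_add (by positivity) (by positivity)]
    apply ENNReal.ofReal_le_ofReal
    have h1 : t / 2 * y ^ 2 + 1 / (2 * t) - y = (t * y - 1) ^ 2 / (2 * t) := by
      field_simp
      ring
    have h2 : 0 ≤ (t * y - 1) ^ 2 / (2 * t) := by positivity
    linarith

/-- Second moment argument. -/
theorem second_moment {Ω : Type} [MeasurableSpace Ω] (μ : Measure Ω) [IsProbabilityMeasure μ]
    (B : ℕ) (hB : 1 ≤ B) (τ : ℕ → Ω → Ω) (Lw : ℕ → Ω → ℝ≥0∞) (A : ℕ → Set Ω)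
    (hτ : ∀ b, Measurable (τ b)) (hL : ∀ b, Measurable (Lw b)) (hA : ∀ b, MeasurableSet (A b))
    (hmap : ∀ b, μ.map (τ b) = μ.withDensity (Lw b))
    {p Q : ℝ} (hp : 0 < p) (hQ0 : 0 ≤ Q) (hQ : Q ≤ B)
    (hpA : ∀ b ∈ Finset.range B, ENNReal.ofReal p ≤ μ (τ b ⁻¹' A b))
    (hoff : ∀ b ∈ Finset.range B, ∀ b' ∈ Finset.range B, b ≠ b' → ∫⁻ a, Lw b a * Lw b' a ∂μ ≤ 1)
    (hdiag : ∀ b ∈ Finset.range B, ∫⁻ a, Lw b a * Lw b a ∂μ ≤ ENNReal.ofReal Q) :
    ENNReal.ofReal (p ^ 2 / 2) ≤ μ (⋃ b ∈ Finset.range B, A b) := by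
  classical
  set S : Set Ω := ⋃ b ∈ Finset.range B, A b with hS
  have hSm : MeasurableSet S := Finset.measurableSet_biUnion _ (fun b _ => hA b)
  have hBpos : (0 : ℝ) < B := by exact_mod_cast hB
  have h1 : (B : ℝ≥0∞) * ENNReal.ofReal p ≤ ∫⁻ a, S.indicator (fun a => ∑ b ∈ Finset.range B, Lw b a) a ∂μ := by
    calc (B : ℝ≥0∞) * ENNReal.ofReal p = ∑ b ∈ Finset.range B, ENNReal.ofReal p := by
          rw [Finset.sum_const, Finset.card_range, nsmul_eq_mul]
      _ ≤ ∑ b ∈ Finset.range B, μ (τ b ⁻¹' A b) := Finset.sum_le_sum hpA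
      _ = ∑ b ∈ Finset.range B, ∫⁻ a, (A b).indicator (Lw b) a ∂μ := by
          apply Finset.sum_congr rfl
          intro b _
          rw [← Measure.map_apply (hτ b) (hA b), hmap b, withDensity_apply _ (hA b),
            lintegral_indicator (hA b)]
      _ = ∫⁻ a, ∑ b ∈ Finset.range B, (A b).indicator (Lw b) a ∂μ := by
          rw [lintegral_finsetSum]
          intro b _
          exact (hL b).indicator (hA b)
      _ ≤ ∫⁻ a, S.indicator (fun a => ∑ b ∈ Finset.range B, Lw b a) a ∂μ := by
          apply lintegral_mono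
          intro a
          by_cases ha : a ∈ S
          · rw [indicator_of_mem ha]
            apply Finset.sum_le_sum
            intro b _
            exact indicator_le_self _ _ _
          · rw [indicator_of_notMem ha]
            apply le_of_eq
            apply Finset.sum_eq_zero
            intro b hb
            apply indicator_of_notMem
            intro hab
            apply ha
            rw [hS]
            exact mem_biUnion hb hab
  set t : ℝ := p / (2 * B) with ht
  have htpos : 0 < t := by positivity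
  have h2 : ∫⁻ a, S.indicator (fun a => ∑ b ∈ Finset.range B, Lw b a) a ∂μ ≤
      ENNReal.ofReal (t / 2) * ∫⁻ a, (∑ b ∈ Finset.range B, Lw b a) ^ 2 ∂μ +
        ENNReal.ofReal (1 / (2 * t)) * μ S := by
    have hm : Measurable (fun a => ∑ b ∈ Finset.range B, Lw b a) :=
      Finset.measurable_sum _ (fun b _ => hL b)
    rw [← lintegral_const_mul _ (hm.pow_const 2), ← lintegral_indicator_one hSm,
      ← lintegral_const_mul _ (measurable_one.indicator hSm),
      ← lintegral_add_left ((hm.pow_const 2).const_mul _)]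
    apply lintegral_mono
    intro a
    by_cases ha : a ∈ S
    · simp only [indicator_of_mem ha, Pi.one_apply, mul_one]
      exact amgm _ htpos
    · simp only [indicator_of_notMem ha]
      exact bot_le
  have h3 : ∫⁻ a, (∑ b ∈ Finset.range B, Lw b a) ^ 2 ∂μ ≤ ENNReal.ofReal (2 * (B : ℝ) ^ 2) := by
    have e1 : ∀ a, (∑ b ∈ Finset.range B, Lw b a) ^ 2 =
        ∑ b ∈ Finset.range B, ∑ b' ∈ Finset.range B, Lw b a * Lw b' a := by
      intro a
      rw [sq, Finset.sum_mul_sum]
    simp only [e1]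
    have hmm : ∀ b b', Measurable (fun a => Lw b a * Lw b' a) := fun b b' => (hL b).mul (hL b')
    rw [lintegral_finsetSum _ (fun b _ => Finset.measurable_sum _ (fun b' _ => hmm b b'))]
    calc ∑ b ∈ Finset.range B, ∫⁻ a, ∑ b' ∈ Finset.range B, Lw b a * Lw b' a ∂μ
        = ∑ b ∈ Finset.range B, ∑ b' ∈ Finset.range B, ∫⁻ a, Lw b a * Lw b' a ∂μ := by
          apply Finset.sum_congr rfl
          intro b _
          rw [lintegral_finsetSum _ (fun b' _ => hmm b b')]
      _ ≤ ∑ b ∈ Finset.range B, ∑ b' ∈ Finset.range B,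
            (1 + if b = b' then ENNReal.ofReal Q else 0) := by
          apply Finset.sum_le_sum
          intro b hb
          apply Finset.sum_le_sum
          intro b' hb'
          by_cases hbb : b = b'
          · subst hbb
            rw [if_pos rfl]
            exact (hdiag b hb).trans le_add_self
          · rw [if_neg hbb, add_zero]
            exact hoff b hb b' hb' hbb
      _ = ENNReal.ofReal ((B : ℝ) * (B + Q)) := by
          simp only [Finset.sum_add_distrib, Finset.sum_const, Finset.card_range, nsmul_eq_mul,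
            mul_one, Finset.sum_ite_eq]
          rw [Finset.sum_congr rfl (g := fun _ => ENNReal.ofReal Q)
            (fun b hb => by rw [if_pos hb])]
          rw [Finset.sum_const, Finset.card_range, nsmul_eq_mul, ← mul_add,
            ENNReal.ofReal_mul hBpos.le, ENNReal.ofReal_add hBpos.le hQ0, ENNReal.ofReal_natCast]
      _ ≤ ENNReal.ofReal (2 * (B : ℝ) ^ 2) := by
          apply ENNReal.ofReal_le_ofReal
          nlinarith
  have hSfin : μ S ≠ ∞ := measure_ne_top _ _
  obtain ⟨y, hy0, hy⟩ : ∃ y : ℝ, 0 ≤ y ∧ μ S = ENNReal.ofReal y :=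
    ⟨(μ S).toReal, ENNReal.toReal_nonneg, (ENNReal.ofReal_toReal hSfin).symm⟩
  have h4 : ENNReal.ofReal (B * p) ≤ ENNReal.ofReal (t / 2 * (2 * (B : ℝ) ^ 2) + 1 / (2 * t) * y) := by
    rw [ENNReal.ofReal_add (by positivity) (by positivity), ENNReal.ofReal_mul (by positivity),
      ENNReal.ofReal_mul (p := t / 2) (by positivity), ENNReal.ofReal_mul (p := 1 / (2 * t)) (by positivity),
      ENNReal.ofReal_natCast, ← hy]
    refine (h1.trans h2).trans ?_
    apply add_le_add _ (le_refl _)
    exact mul_le_mul_right h3 _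
  rw [ENNReal.ofReal_le_ofReal_iff (by positivity)] at h4
  rw [hy]
  apply ENNReal.ofReal_le_ofReal
  have e5 : t / 2 * (2 * (B : ℝ) ^ 2) = B * p / 2 := by rw [ht]; field_simp
  have e6 : 1 / (2 * t) * y = B / p * y := by rw [ht]; field_simp
  rw [e5, e6] at h4
  have h5 : B * p / 2 ≤ B / p * y := by linarith
  rw [div_mul_eq_mul_div, le_div_iff₀ hp] at h5
  have h6 : (B : ℝ) * (p ^ 2 / 2) ≤ B * y := by nlinarith
  exact le_of_mul_le_mul_left h6 hBpos

end Pool.Agent.Helper553.Kac
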